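import Pool.Agent.T2H45.OT.Stm

/-! # Package AFF -/

set_option autoImplicit false

noncomputable section

namespace Pool.Agent.T2H45.OT

open Finset
open scoped Classical

namespace PkgAFF

lemma per {f : ℕ → Prop} {N : ℕ} (h : ∀ n, f (n + N) ↔ f n) (n k : ℕ) :
    f (n + N * k) ↔ f n := by
  induction k with
  | zero => simp
  | succ k ih =>
    rw [show n + N * (k + 1) = (n + N * k) + N by ring, h]
    exact ih

lemma perMod {f : ℕ → Prop} {N : ℕ} (h : ∀ n, f (n + N) ↔ f n) (n : ℕ) :
    f (n % N) ↔ f n := by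
  have := per h (n % N) (n / N)
  rw [Nat.mod_add_div] at this
  exact this.symm

end PkgAFF

theorem pAFF : S_AFF := by
  intro q A B f hq hA hf
  have hN : 0 < q ^ 2 := by positivity
  have hco : A.Coprime (q ^ 2) := Nat.Coprime.pow_right 2 hA
  set g : ℕ → ℕ := fun t => (A * t + B) % q ^ 2 with hg
  have hinj : Set.InjOn g (range (q ^ 2)) := by
    intro s hs t ht h
    rw [Finset.coe_range, Set.mem_Iio] at hs ht
    have h1 : A * s + B ≡ A * t + B [MOD q ^ 2] := h
    have h2 : A * s ≡ A * t [MOD q ^ 2] := Nat.ModEq.add_right_cancel' B h1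
    have h3 : s ≡ t [MOD q ^ 2] := Nat.ModEq.cancel_left_of_coprime (by
      rw [Nat.coprime_comm] at hco
      exact hco) h2
    exact Nat.ModEq.eq_of_lt_of_lt h3 hs ht
  have himg : (range (q ^ 2)).image g = range (q ^ 2) := by
    apply Finset.eq_of_subset_of_card_le
    · intro x hx
      rw [Finset.mem_image] at hx
      obtain ⟨t, _, rfl⟩ := hx
      exact Finset.mem_range.mpr (Nat.mod_lt _ hN)
    · rw [Finset.card_image_of_injOn hinj]
  have h1 : (range (q ^ 2)).filter f = ((range (q ^ 2)).filter (fun t => f (g t))).image g := by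
    conv_lhs => rw [← himg]
    rw [Finset.filter_image]
  rw [h1, Finset.card_image_of_injOn (hinj.mono (Finset.coe_subset.mpr (Finset.filter_subset _ _)))]
  congr 1
  apply Finset.filter_congr
  intro t _
  exact (PkgAFF.perMod hf (A * t + B)).symm

end Pool.Agent.T2H45.OT
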