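import Pool.Agent.T2H45.OT.Stm

/-! # Package BEZ -/

set_option autoImplicit false

noncomputable section

namespace Pool.Agent.T2H45.OT

open Finset
open scoped Classical

open Polynomial in
theorem pBEZ : S_BEZ := by
  intro F G h
  set F' : ℚ[X] := F.map (Int.castRingHom ℚ) with hF'
  set G' : ℚ[X] := G.map (Int.castRingHom ℚ) with hG'
  have hco : IsCoprime F' G' := by
    rw [Polynomial.isCoprime_iff_aeval_ne_zero_of_isAlgClosed ℚ ℂ]
    intro z
    by_contra hcon
    push Not at hcon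
    apply h z
    have e : ∀ H : ℤ[X], aeval z (H.map (Int.castRingHom ℚ)) = aeval z H := by
      intro H
      exact Polynomial.aeval_map_algebraMap ℚ z H
    rw [← e F, ← e G]
    exact hcon
  obtain ⟨u, v, huv⟩ := hco
  obtain ⟨b, hb⟩ := IsLocalization.integerNormalization_map_to_map (nonZeroDivisors ℤ) u
  obtain ⟨c, hc⟩ := IsLocalization.integerNormalization_map_to_map (nonZeroDivisors ℤ) v
  set U := IsLocalization.integerNormalization (nonZeroDivisors ℤ) u with hU
  set V := IsLocalization.integerNormalization (nonZeroDivisors ℤ) v with hV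
  have hb0 : (b : ℤ) ≠ 0 := nonZeroDivisors.ne_zero b.2
  have hc0 : (c : ℤ) ≠ 0 := nonZeroDivisors.ne_zero c.2
  have key : (C (c : ℤ) * U) * F + (C (b : ℤ) * V) * G = C ((b : ℤ) * (c : ℤ)) := by
    apply Polynomial.map_injective (Int.castRingHom ℚ) Int.cast_injective
    have hb' : U.map (Int.castRingHom ℚ) = C ((b : ℤ) : ℚ) * u := by
      have : U.map (Int.castRingHom ℚ) = (b : ℤ) • u := hb
      rw [this, zsmul_eq_mul]
      simp
    have hc' : V.map (Int.castRingHom ℚ) = C ((c : ℤ) : ℚ) * v := by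
      have : V.map (Int.castRingHom ℚ) = (c : ℤ) • v := hc
      rw [this, zsmul_eq_mul]
      simp
    rw [Polynomial.map_add, Polynomial.map_mul, Polynomial.map_mul, Polynomial.map_mul,
      Polynomial.map_mul, Polynomial.map_C, Polynomial.map_C, Polynomial.map_C, hb', hc',
      ← hF', ← hG']
    have e1 : (Int.castRingHom ℚ) ((b : ℤ) * (c : ℤ)) = ((b : ℤ) : ℚ) * ((c : ℤ) : ℚ) := by
      simp
    rw [e1, C_mul]
    have e2 : (Int.castRingHom ℚ) (b : ℤ) = ((b : ℤ) : ℚ) := rfl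
    have e3 : (Int.castRingHom ℚ) (c : ℤ) = ((c : ℤ) : ℚ) := rfl
    rw [e2, e3]
    calc C ((c : ℤ) : ℚ) * (C ((b : ℤ) : ℚ) * u) * F' + C ((b : ℤ) : ℚ) * (C ((c : ℤ) : ℚ) * v) * G'
        = C ((b : ℤ) : ℚ) * C ((c : ℤ) : ℚ) * (u * F' + v * G') := by ring
      _ = C ((b : ℤ) : ℚ) * C ((c : ℤ) : ℚ) := by rw [huv, mul_one]
  refine ⟨((b : ℤ) * (c : ℤ)).natAbs, Int.natAbs_pos.mpr (mul_ne_zero hb0 hc0), ?_⟩
  intro q hq hqR n hn
  apply hqR
  have h1 := congrArg (fun P => Polynomial.eval n P) key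
  simp only [eval_add, eval_mul, eval_C] at h1
  have h2 : (q : ℤ) ∣ (b : ℤ) * (c : ℤ) := by
    rw [← h1]
    exact dvd_add (Dvd.dvd.mul_left hn.1 _) (Dvd.dvd.mul_left hn.2 _)
  exact Int.natCast_dvd.mp h2

end Pool.Agent.T2H45.OT
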