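import Pool.Agent.T2H45.OT.Stm

/-! # Package BRN -/

set_option autoImplicit false

noncomputable section

namespace Pool.Agent.T2H45.OT

open Finset
open scoped Classical

theorem pBRN : S_BRN := by
  intro A C ε hC hε h
  set g : ℕ → ℝ := A.indicator fun n : ℕ => 1 / (n : ℝ) with hg
  have hg0 : ∀ n, 0 ≤ g n := by
    intro n
    rw [hg]
    apply Set.indicator_nonneg
    intro x _
    positivity
  set K : ℝ := 1 + 2 * C * (Real.log 2) ^ (ε - 2) with hK
  have hlog2 : 0 < Real.log 2 := Real.log_pos (by norm_num)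
  have hK0 : 0 ≤ 2 * C * (Real.log 2) ^ (ε - 2) := by positivity
  have hblock : ∀ j : ℕ, ∑ n ∈ Ico (2 ^ j) (2 ^ (j + 1)), g n ≤ K * ((j : ℝ) + 1) ^ (ε - 2) := by
    intro j
    rcases Nat.eq_zero_or_pos j with rfl | hj
    · have e : Ico (2 ^ 0) (2 ^ (0 + 1)) = {1} := by decide
      rw [e, Finset.sum_singleton]
      have h1 : g 1 ≤ 1 := by
        rw [hg]
        by_cases h1 : 1 ∈ A
        · rw [Set.indicator_of_mem h1]
          simp
        · rw [Set.indicator_of_notMem h1]
          norm_num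
      have h2 : ((0 : ℕ) : ℝ) + 1 = 1 := by norm_num
      rw [h2, Real.one_rpow, mul_one]
      linarith
    · have h1 : ∑ n ∈ Ico (2 ^ j) (2 ^ (j + 1)), g n
          ≤ ∑ n ∈ (Ico (2 ^ j) (2 ^ (j + 1))).filter (fun n => n ∈ A), 1 / (2 : ℝ) ^ j := by
        rw [Finset.sum_filter]
        apply Finset.sum_le_sum
        intro n hn
        rw [Finset.mem_Ico] at hn
        rw [hg]
        by_cases hA : n ∈ A
        · rw [Set.indicator_of_mem hA, if_pos hA]
          apply one_div_le_one_div_of_le (by positivity)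
          exact_mod_cast hn.1
        · rw [Set.indicator_of_notMem hA, if_neg hA]
      rw [Finset.sum_const, nsmul_eq_mul] at h1
      have hfin : {n : ℕ | 0 < n ∧ n ≤ 2 ^ (j + 1) ∧ n ∈ A}.Finite :=
        (Set.finite_Iic (2 ^ (j + 1))).subset (fun n hn => hn.2.1)
      have h2 : ((Ico (2 ^ j) (2 ^ (j + 1))).filter (fun n => n ∈ A)).card
          ≤ {n : ℕ | 0 < n ∧ n ≤ 2 ^ (j + 1) ∧ n ∈ A}.ncard := by
        rw [← Set.ncard_coe_finset]
        apply Set.ncard_le_ncard _ hfin
        intro n hn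
        rw [Finset.mem_coe, Finset.mem_filter, Finset.mem_Ico] at hn
        exact ⟨lt_of_lt_of_le (by positivity) hn.1.1, hn.1.2.le, hn.2⟩
      have hX : 3 ≤ 2 ^ (j + 1) := by
        calc 3 ≤ 2 ^ 2 := by norm_num
          _ ≤ 2 ^ (j + 1) := Nat.pow_le_pow_right (by norm_num) (by omega)
      have h3 := h (2 ^ (j + 1)) hX
      have hlog : Real.log ((2 ^ (j + 1) : ℕ) : ℝ) = ((j : ℝ) + 1) * Real.log 2 := by
        push_cast
        rw [Real.log_pow]
        push_cast
        ring
      rw [hlog, Real.mul_rpow (by positivity) hlog2.le] at h3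
      have h4 : (((Ico (2 ^ j) (2 ^ (j + 1))).filter (fun n => n ∈ A)).card : ℝ)
          ≤ C * ((2 ^ (j + 1) : ℕ) : ℝ) * (((j : ℝ) + 1) ^ (ε - 2) * (Real.log 2) ^ (ε - 2)) :=
        le_trans (by exact_mod_cast h2) h3
      have h5 : (0 : ℝ) ≤ ((j : ℝ) + 1) ^ (ε - 2) := by positivity
      calc ∑ n ∈ Ico (2 ^ j) (2 ^ (j + 1)), g n
          ≤ (((Ico (2 ^ j) (2 ^ (j + 1))).filter (fun n => n ∈ A)).card : ℝ)
            * (1 / (2 : ℝ) ^ j) := h1
        _ ≤ (C * ((2 ^ (j + 1) : ℕ) : ℝ) * (((j : ℝ) + 1) ^ (ε - 2)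
              * (Real.log 2) ^ (ε - 2))) * (1 / (2 : ℝ) ^ j) :=
            mul_le_mul_of_nonneg_right h4 (by positivity)
        _ = (2 * C * (Real.log 2) ^ (ε - 2)) * ((j : ℝ) + 1) ^ (ε - 2) := by
            have : ((2 ^ (j + 1) : ℕ) : ℝ) = 2 * 2 ^ j := by
              push_cast
              ring
            rw [this]
            field_simp
        _ ≤ K * ((j : ℝ) + 1) ^ (ε - 2) := by
            apply mul_le_mul_of_nonneg_right _ h5
            rw [hK]
            linarith
  have hsum : Summable (fun j : ℕ => K * ((j : ℝ) + 1) ^ (ε - 2)) := by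
    apply Summable.mul_left
    have h1 : Summable (fun n : ℕ => (n : ℝ) ^ (ε - 2)) := by
      rw [Real.summable_nat_rpow]
      linarith
    have h2 := (summable_nat_add_iff 1).mpr h1
    refine h2.congr (fun n => ?_)
    push_cast
    rfl
  have hpart : ∀ J : ℕ, ∑ n ∈ range (2 ^ J), g n
      ≤ ∑ j ∈ range J, K * ((j : ℝ) + 1) ^ (ε - 2) := by
    intro J
    induction J with
    | zero =>
      have e : range (2 ^ 0) = {0} := by decide
      rw [e, Finset.sum_singleton, Finset.sum_range_zero, hg]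
      by_cases h0 : 0 ∈ A
      · rw [Set.indicator_of_mem h0]
        simp
      · rw [Set.indicator_of_notMem h0]
    | succ J ih =>
      rw [Finset.sum_range_succ, ← Finset.sum_range_add_sum_Ico g
        (Nat.pow_le_pow_right (by norm_num : 0 < 2) (Nat.le_succ J))]
      exact add_le_add ih (hblock J)
  have hterm : ∀ j : ℕ, 0 ≤ K * ((j : ℝ) + 1) ^ (ε - 2) := by
    intro j
    have : 0 ≤ K := by
      rw [hK]
      linarith
    positivity
  apply summable_of_sum_range_le (c := ∑' j : ℕ, K * ((j : ℝ) + 1) ^ (ε - 2)) hg0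
  intro n
  calc ∑ i ∈ range n, g i ≤ ∑ i ∈ range (2 ^ n), g i := by
        apply Finset.sum_le_sum_of_subset_of_nonneg
        · exact Finset.range_subset_range.mpr Nat.lt_two_pow_self.le
        · intro i _ _
          exact hg0 i
    _ ≤ ∑ j ∈ range n, K * ((j : ℝ) + 1) ^ (ε - 2) := hpart n
    _ ≤ _ := hsum.sum_le_tsum _ (fun j _ => hterm j)

end Pool.Agent.T2H45.OT
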