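import Pool.Agent.T2H45.OT.Stm
import Pool.Agent.H951R4.OD.D3

/-! # Package CMB -/

set_option autoImplicit false

noncomputable section

namespace Pool.Agent.T2H45.OT

open Finset
open Pool.Agent.H951R4.OD (ch PI Ex fl cl sum_inv_prod d3_smallest d3_log)
open scoped Classical

namespace PkgCMB

/-- the sets of at most `k` primes up to `z` -/
def FF (k z : ℕ) : Finset (Finset ℕ) := (range (k + 1)).biUnion (fun j => (PI 0 z).powersetCard j)

theorem mem_FF {k z : ℕ} {s : Finset ℕ} : s ∈ FF k z ↔ s ⊆ PI 0 z ∧ s.card ≤ k := by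
  unfold FF
  rw [Finset.mem_biUnion]
  constructor
  · rintro ⟨j, hj, hs⟩
    rw [Finset.mem_powersetCard] at hs
    rw [Finset.mem_range] at hj
    exact ⟨hs.1, by omega⟩
  · rintro ⟨h1, h2⟩
    exact ⟨s.card, Finset.mem_range.2 (by omega), Finset.mem_powersetCard.2 ⟨h1, rfl⟩⟩

theorem mem_PI {z p : ℕ} : p ∈ PI 0 z ↔ p.Prime ∧ p ≤ z := by
  unfold PI
  rw [Finset.mem_filter, Finset.mem_Ioc]
  constructor
  · rintro ⟨⟨h1, h2⟩, h3⟩
    exact ⟨h3, h2⟩
  · rintro ⟨h1, h2⟩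
    exact ⟨⟨h1.pos, h2⟩, h1⟩

theorem sumFF (k : ℕ) : ∃ E : ℝ, 1 ≤ E ∧ ∀ z : ℕ, 3 ≤ z →
    ∑ s ∈ FF k z, 1 / ∏ p ∈ s, (p : ℝ) ≤ E * (1 + Real.log (Real.log z)) ^ k := by
  choose D hD1 hD using sum_inv_prod
  refine ⟨∑ j ∈ range (k + 1), D j, ?_, fun z hz => ?_⟩
  · have h1 : D 0 ≤ ∑ j ∈ range (k + 1), D j :=
      Finset.single_le_sum (f := D) (fun j _ => by linarith [hD1 j]) (Finset.mem_range.2 (by omega))
    linarith [hD1 0]
  · obtain ⟨-, hll⟩ := d3_log hz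
    unfold FF
    rw [Finset.sum_biUnion]
    · rw [Finset.sum_mul]
      refine Finset.sum_le_sum fun j hj => ?_
      rw [Finset.mem_range] at hj
      refine (hD j z hz).trans ?_
      refine mul_le_mul_of_nonneg_left ?_ (by linarith [hD1 j])
      exact pow_le_pow_right₀ (by linarith) (by omega)
    · intro i _ j _ hij
      exact Finset.pairwise_disjoint_powersetCard _ hij

theorem choosePs (c k z m : ℕ) : ∃ s ∈ FF k z, (∀ p ∈ s, Ex c m p) ∧
    ∀ p : ℕ, Ex c m p → (s.card < k ∧ p ≤ z ∨ p ≤ s.sup id) → p ∈ s := by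
  set X := (PI 0 z).filter (fun p => Ex c m p) with hX
  have hXe : ∀ p ∈ X, Ex c m p := fun p hp => (Finset.mem_filter.1 hp).2
  have hXz : ∀ p ∈ X, p ≤ z := fun p hp => (mem_PI.1 (Finset.mem_filter.1 hp).1).2
  have hXm : ∀ p, p ≤ z → Ex c m p → p ∈ X := fun p hp he =>
    Finset.mem_filter.2 ⟨mem_PI.2 ⟨he.1, hp⟩, he⟩
  by_cases hk : X.card < k
  · refine ⟨X, mem_FF.2 ⟨Finset.filter_subset _ _, hk.le⟩, hXe, fun p he hp => ?_⟩
    rcases hp with hp | hp
    · exact hXm p hp.2 he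
    · exact hXm p (hp.trans (Finset.sup_le fun q hq => hXz q hq)) he
  · push Not at hk
    have h0 : 0 ∉ X := fun h => Nat.not_prime_zero (hXe 0 h).1
    obtain ⟨ps, hps, hcard, hdown⟩ := d3_smallest X h0 k hk
    refine ⟨ps, mem_FF.2 ⟨hps.trans (Finset.filter_subset _ _), hcard.le⟩,
      fun p hp => hXe p (hps hp), fun p he hp => ?_⟩
    rcases hp with hp | hp
    · omega
    · exact hdown p (hXm p (hp.trans (Finset.sup_le fun q hq => hXz q (hps hq))) he) hp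

theorem ncard_le (x H : ℕ) (P : ℕ → Prop) :
    {n : ℕ | x < n ∧ n ≤ x + H ∧ P n}.ncard = ((Ioc x (x + H)).filter P).card := by
  rw [← Set.ncard_coe_finset]
  congr 1
  ext n
  simp only [Set.mem_ofPred_eq, Finset.coe_filter, Finset.mem_Ioc, and_assoc]

end PkgCMB

open PkgCMB in
theorem pCMB (hCNT : S_CNT) : S_CMB := by
  intro r a b κ T c hG hS k hk hκ
  obtain ⟨C0, hC0, h0⟩ := hCNT r a b κ T c hG hS k hk hκ
  obtain ⟨E, hE, hEz⟩ := sumFF k
  have hEr : (0 : ℝ) ≤ E ^ r := by positivity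
  have hCE : (0 : ℝ) ≤ C0 * E ^ r := mul_nonneg (by linarith) hEr
  refine ⟨C0 * E ^ r + C0, by linarith, fun z x H hz hH => ?_⟩
  obtain ⟨hlog, hll⟩ := d3_log hz
  have hA : 0 ≤ Real.log z * (1 + Real.log (Real.log z)) := by positivity
  have hH0 : C0 * Real.log z * (1 + Real.log (Real.log z)) ≤ Real.log H := by
    refine le_trans ?_ hH
    rw [mul_assoc, mul_assoc]
    exact mul_le_mul_of_nonneg_right (by linarith) hA
  set W : ℝ := (Real.log z) ^ (-∑ i, (1 - (κ i : ℝ) / 2 ^ k)) with hW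
  have hW0 : 0 ≤ W := Real.rpow_nonneg (by linarith) _
  rw [ncard_le]
  let A : (Fin r → Finset ℕ) → Finset ℕ := fun ps => (Ioc x (x + H)).filter fun n =>
    ∀ i, PassT (T i) c (a i * n + b i) ∧
        (∀ p ∈ ps i, Ex c (a i * n + b i) p) ∧
        ∀ p : ℕ, Ex c (a i * n + b i) p → ((ps i).card < k ∧ p ≤ z ∨ p ≤ (ps i).sup id) →
          p ∈ ps i
  have hcov : (Ioc x (x + H)).filter (fun n => ∀ i, PassT (T i) c (a i * n + b i)) ⊆
      (Fintype.piFinset fun _ : Fin r => FF k z).biUnion A := by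
    intro n hn
    rw [Finset.mem_filter] at hn
    choose ps hps1 hps2 hps3 using fun i : Fin r => choosePs c k z (a i * n + b i)
    rw [Finset.mem_biUnion]
    refine ⟨ps, Fintype.mem_piFinset.2 hps1, Finset.mem_filter.2 ⟨hn.1, fun i => ?_⟩⟩
    exact ⟨hn.2 i, hps2 i, hps3 i⟩
  have hc1 : (((Ioc x (x + H)).filter (fun n => ∀ i, PassT (T i) c (a i * n + b i))).card : ℝ) ≤
      ∑ ps ∈ Fintype.piFinset fun _ : Fin r => FF k z, ((A ps).card : ℝ) := by
    exact_mod_cast (Finset.card_le_card hcov).trans Finset.card_biUnion_le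
  refine le_trans (le_of_eq (by congr!)) (hc1.trans ?_)
  have hc2 : ∀ ps ∈ Fintype.piFinset fun _ : Fin r => FF k z, ((A ps).card : ℝ) ≤
      C0 * H * W * ∏ i, (1 / ∏ p ∈ ps i, (p : ℝ)) := by
    intro ps hps
    rw [Fintype.mem_piFinset] at hps
    have h1 := h0 z x H hz hH0 ps (fun i => ⟨(mem_FF.1 (hps i)).2, fun p hp =>
      mem_PI.1 ((mem_FF.1 (hps i)).1 hp)⟩)
    rw [ncard_le] at h1
    refine le_trans (le_of_eq (by simp only [A]; congr!)) (h1.trans (le_of_eq ?_))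
    rw [Finset.prod_div_distrib, Finset.prod_const_one]
    ring
  refine (Finset.sum_le_sum hc2).trans ?_
  rw [← Finset.mul_sum, ← Finset.prod_univ_sum (fun _ : Fin r => FF k z)
    (fun _ s => 1 / ∏ p ∈ s, (p : ℝ))]
  rw [Finset.prod_const, Finset.card_univ, Fintype.card_fin]
  have h2 : (∑ s ∈ FF k z, 1 / ∏ p ∈ s, (p : ℝ)) ^ r ≤ (E * (1 + Real.log (Real.log z)) ^ k) ^ r :=
    pow_le_pow_left₀ (Finset.sum_nonneg fun s _ => by positivity) (hEz z hz) r
  rw [mul_pow, ← pow_mul] at h2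
  have h3 : (0 : ℝ) ≤ C0 * H * W := by
    have : (0 : ℝ) ≤ C0 := by linarith
    positivity
  refine (mul_le_mul_of_nonneg_left h2 h3).trans ?_
  have h4 : (0 : ℝ) ≤ (1 + Real.log (Real.log z)) ^ (k * r) := by positivity
  have h5 : (0 : ℝ) ≤ H * (1 + Real.log (Real.log z)) ^ (k * r) * W := by positivity
  calc C0 * H * W * (E ^ r * (1 + Real.log (Real.log z)) ^ (k * r))
      = (C0 * E ^ r) * (H * (1 + Real.log (Real.log z)) ^ (k * r) * W) := by ring
    _ ≤ (C0 * E ^ r + C0) * (H * (1 + Real.log (Real.log z)) ^ (k * r) * W) :=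
        mul_le_mul_of_nonneg_right (by linarith) h5
    _ = (C0 * E ^ r + C0) * H * (1 + Real.log (Real.log z)) ^ (k * r) * W := by ring

end Pool.Agent.T2H45.OT
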