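import Pool.Agent.T2H45.OT.Stm

set_option autoImplicit false

noncomputable section

namespace Pool.Agent.T2H45.OT

open Finset
open Pool.Agent.H951R4.OD (ch PI Ex fl cl)
open scoped Classical

namespace PkgCNT

lemma per_mul {f : ℕ → Prop} {P : ℕ} (h : ∀ n, f (n + P) ↔ f n) (n M : ℕ) :
    f (n + M * P) ↔ f n := by
  induction M with
  | zero => simp
  | succ M ih =>
    rw [show n + (M + 1) * P = (n + M * P) + P by ring, h, ih]

lemma lz {z : ℕ} (hz : 3 ≤ z) : 1 ≤ Real.log z ∧ 0 ≤ Real.log (Real.log z) := by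
  have hz3 : (3 : ℝ) ≤ z := by exact_mod_cast hz
  have h1 : 1 ≤ Real.log z := by
    rw [Real.le_log_iff_exp_le (by linarith)]
    have := Real.exp_one_lt_d9
    linarith
  exact ⟨h1, Real.log_nonneg h1⟩

lemma dens0 {r : ℕ} {a b κ : Fin r → ℕ} {T : Fin r → ℕ → ℕ → Prop} {c : ℕ}
    (hAFF : S_AFF) (hMUP : S_MUP)
    (hG : ∀ i, Good (T i) c (κ i)) (hS : Sep r a b T c) (k : ℕ) (Cb : Fin r → ℕ)
    (ps : Fin r → Finset ℕ) (q Pr n₁ : ℕ) (hq : q.Prime) (hqc : ¬ q ∣ c) (hcop : Pr.Coprime q)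
    (B : ℕ → ℕ → Prop)
    (hB : ∀ t, B q t ↔ ∃ i, Bc (T i) k (Cb i) (ps i) q (a i * (n₁ + Pr * t) + b i)) :
    (((range (q ^ 2)).filter (fun t => B q t)).card : ℝ) / (q : ℝ) ^ 2 =
      ∑ i, mu (T i) k (Cb i) (ps i) q := by
  have h1 : ((range (q ^ 2)).filter (fun t => B q t)) = (univ : Finset (Fin r)).biUnion (fun i =>
        (range (q ^ 2)).filter (fun t => Bc (T i) k (Cb i) (ps i) q (a i * (n₁ + Pr * t) + b i))) := by
    ext t
    simp only [mem_filter, mem_biUnion, mem_univ, true_and, hB]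
    constructor
    · rintro ⟨ht, i, hi⟩
      exact ⟨i, ht, hi⟩
    · rintro ⟨i, ht, hi⟩
      exact ⟨ht, i, hi⟩
  have hBc : ∀ i n, Bc (T i) k (Cb i) (ps i) q n → (q ∣ n ∨ T i q n) := by
    rintro i n (h | h)
    · exact Or.inl h.2.1
    · exact Or.inr h.2.2.2
  rw [h1, card_biUnion]
  · push_cast
    rw [sum_div]
    refine sum_congr rfl fun i _ => ?_
    unfold mu
    have hper := (hMUP (T i) c (κ i) (hG i) k (Cb i) (ps i) q hq hqc).2
    have hai : (a i).Coprime q := by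
      rw [Nat.coprime_comm, hq.coprime_iff_not_dvd]
      intro h
      exact hqc (h.trans (hS.a_dvd i))
    have h2 := hAFF q (a i * Pr) (a i * n₁ + b i) (Bc (T i) k (Cb i) (ps i) q) hq.pos
      (Nat.Coprime.mul_left hai hcop) hper
    rw [← h2]
    congr 3
    ext t
    simp only [mem_filter]
    rw [show a i * (n₁ + Pr * t) + b i = a i * Pr * t + (a i * n₁ + b i) by ring]
  · intro i _ j _ hij
    rw [Function.onFun, disjoint_left]
    intro t hi hj
    rw [mem_filter] at hi hj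
    exact hS.sep q hq hqc i j hij (n₁ + Pr * t) ⟨hBc i _ hi.2, hBc j _ hj.2⟩

end PkgCNT

open PkgCNT

theorem pCNT (hSVI : S_SVI) (hAFF : S_AFF) (hMUP : S_MUP) : S_CNT := by
  intro r a b κ T c hG hS k hk hk2
  have hlow := fun i => (hG i).low k (r * k) hk (hk2 i)
  choose Cb Cl hlow using hlow
  obtain ⟨κ', hκ'⟩ : ∃ κ' : ℝ, κ' = 1 + ∑ i, ((κ i : ℝ) + 1) := ⟨_, rfl⟩
  have hκs : 0 ≤ ∑ i, ((κ i : ℝ) + 1) := sum_nonneg fun i _ => by positivity
  obtain ⟨Cs, hCs, hsieve⟩ := hSVI κ' (by rw [hκ']; linarith)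
  obtain ⟨E, hE⟩ : ∃ E : ℝ, E = Real.exp (∑ i, Cl i) := ⟨_, rfl⟩
  have hE0 : 0 < E := by rw [hE]; exact Real.exp_pos _
  obtain ⟨D, hD⟩ : ∃ D : ℝ, D = ∑ i, (1 - (κ i : ℝ) / 2 ^ k) := ⟨_, rfl⟩
  refine ⟨3 * Cs * E + Cs + r * k + 1, ?_, ?_⟩
  · have : 0 ≤ 3 * Cs * E := by positivity
    have : (0 : ℝ) ≤ r * k := by positivity
    linarith
  intro z x H hz hX ps hps
  obtain ⟨hlz, hllz⟩ := lz hz
  have hlz0 : 0 < Real.log z := by linarith
  have hrk0 : (0 : ℝ) ≤ r * k := by positivity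
  have hCE0 : 0 ≤ 3 * Cs * E := by positivity
  rw [← hD]
  obtain ⟨A, hA⟩ : ∃ A : Set ℕ, A = {n : ℕ | x < n ∧ n ≤ x + H ∧ ∀ i, PassT (T i) c (a i * n + b i) ∧
        (∀ p ∈ ps i, Ex c (a i * n + b i) p) ∧
        ∀ p : ℕ, Ex c (a i * n + b i) p → ((ps i).card < k ∧ p ≤ z ∨ p ≤ (ps i).sup id) →
          p ∈ ps i} := ⟨_, rfl⟩
  rw [← hA]
  have hrp : 0 < (Real.log z) ^ (-D) := Real.rpow_pos_of_pos hlz0 _
  rcases A.eq_empty_or_nonempty with hAe | ⟨n₀, hn₀⟩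
  · rw [hAe, Set.ncard_empty]
    have h0 : (0 : ℝ) ≤ (3 * Cs * E + Cs + r * k + 1) * (H / ∏ i, ∏ p ∈ ps i, (p : ℝ)) := by
      positivity
    have := mul_nonneg h0 hrp.le
    simpa using this
  have hAmem : ∀ n ∈ A, x < n ∧ n ≤ x + H ∧ ∀ i, PassT (T i) c (a i * n + b i) ∧
        (∀ p ∈ ps i, Ex c (a i * n + b i) p) ∧
        ∀ p : ℕ, Ex c (a i * n + b i) p → ((ps i).card < k ∧ p ≤ z ∨ p ≤ (ps i).sup id) →
          p ∈ ps i := by
    intro n hn
    rw [hA] at hn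
    exact hn
  have hn₀' := hAmem n₀ hn₀
  -- the sets are disjoint
  have hdisj : ∀ i j, i ≠ j → Disjoint (ps i) (ps j) := by
    intro i j hij
    rw [disjoint_left]
    intro p hi hj
    have h1 := (hn₀'.2.2 i).2.1 p hi
    have h2 := (hn₀'.2.2 j).2.1 p hj
    exact hS.sep p h1.1 h1.2.1 i j hij n₀ ⟨Or.inl h1.2.2.1, Or.inl h2.2.2.1⟩
  obtain ⟨U, hU⟩ : ∃ U : Finset ℕ, U = univ.biUnion ps := ⟨_, rfl⟩
  have hUmem : ∀ p ∈ U, ∃ i, p ∈ ps i := by
    intro p hp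
    rw [hU, mem_biUnion] at hp
    obtain ⟨i, _, hi⟩ := hp
    exact ⟨i, hi⟩
  have hUsub : ∀ i, ps i ⊆ U := by
    intro i
    rw [hU]
    exact subset_biUnion_of_mem ps (mem_univ i)
  have hUprime : ∀ p ∈ U, p.Prime ∧ p ≤ z ∧ ¬ p ∣ c := by
    intro p hp
    obtain ⟨i, hi⟩ := hUmem p hp
    exact ⟨((hps i).2 p hi).1, ((hps i).2 p hi).2, ((hn₀'.2.2 i).2.1 p hi).2.1⟩
  have hUcard : U.card ≤ r * k := by
    rw [hU]
    refine card_biUnion_le.trans ?_
    calc ∑ i : Fin r, (ps i).card ≤ ∑ _i : Fin r, k := sum_le_sum fun i _ => (hps i).1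
      _ = r * k := by simp
  obtain ⟨Pr, hPr⟩ : ∃ Pr : ℕ, Pr = ∏ p ∈ U, p := ⟨_, rfl⟩
  have hPrprod : (∏ i, ∏ p ∈ ps i, (p : ℝ)) = (Pr : ℝ) := by
    rw [hPr, hU, prod_biUnion (fun i _ j _ hij => hdisj i j hij)]
    push_cast
    rfl
  rw [hPrprod]
  have hPr0 : 0 < Pr := by
    rw [hPr]
    exact prod_pos fun p hp => (hUprime p hp).1.pos
  have hPrz : Pr ≤ z ^ (r * k) := by
    rw [hPr]
    refine (prod_le_pow_card U (fun p => p) z fun p hp => (hUprime p hp).2.1).trans ?_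
    exact Nat.pow_le_pow_right (by omega) hUcard
  have hPrr : (1 : ℝ) ≤ Pr := by exact_mod_cast hPr0
  have hz0 : (0 : ℝ) < z := by
    have : 0 < z := by omega
    exact_mod_cast this
  have hlogPr : Real.log Pr ≤ (r * k : ℝ) * Real.log z := by
    have h1 : Real.log Pr ≤ Real.log ((z : ℝ) ^ (r * k)) := by
      apply Real.log_le_log (by linarith)
      exact_mod_cast hPrz
    rw [Real.log_pow] at h1
    push_cast at h1
    exact h1
  obtain ⟨LL, hLL⟩ : ∃ LL : ℝ, LL = Real.log z * (1 + Real.log (Real.log z)) := ⟨_, rfl⟩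
  have hLLz : Real.log z ≤ LL := by
    rw [hLL]
    nlinarith
  rw [mul_assoc, ← hLL] at hX
  have hLL0 : 0 < LL := by linarith
  have hX2 : (Cs + r * k + 1) * LL ≤ Real.log H := by
    refine le_trans ?_ hX
    apply mul_le_mul_of_nonneg_right _ hLL0.le
    linarith
  have hlogPr2 : Real.log Pr ≤ (r * k : ℝ) * LL :=
    hlogPr.trans (mul_le_mul_of_nonneg_left hLLz hrk0)
  have hlogH : Cs * LL + Real.log Pr ≤ Real.log H := by
    have : (Cs + r * k + 1) * LL = Cs * LL + r * k * LL + LL := by ring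
    linarith
  have hHpos : (0 : ℝ) < H := by
    by_contra hcon
    push Not at hcon
    have h1 : (H : ℝ) = 0 := le_antisymm hcon (Nat.cast_nonneg H)
    rw [h1, Real.log_zero] at hlogH
    have : 0 ≤ Real.log Pr := Real.log_nonneg hPrr
    have : 0 < Cs * LL := by positivity
    linarith
  have hPrH : (Pr : ℝ) ≤ H := by
    rw [← Real.log_le_log_iff (by linarith) hHpos]
    have : 0 < Cs * LL := by positivity
    linarith
  -- the new interval
  obtain ⟨n₁, hn₁⟩ : ∃ n₁ : ℕ, n₁ = n₀ % Pr := ⟨_, rfl⟩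
  obtain ⟨s, hs⟩ : ∃ s : ℕ, s = (x + 1) / Pr := ⟨_, rfl⟩
  obtain ⟨N, hN⟩ : ∃ N : ℕ, N = H / Pr + 2 := ⟨_, rfl⟩
  have hNge : (H : ℝ) / Pr ≤ N := by
    have h1 : (H : ℝ) / Pr < ((H / Pr : ℕ) : ℝ) + 1 := by
      rw [div_lt_iff₀ (by linarith)]
      have := Nat.lt_mul_div_succ H hPr0
      rw [mul_comm]
      exact_mod_cast this
    rw [hN]
    push_cast
    linarith
  have hNle : (N : ℝ) ≤ 3 * (H / Pr) := by
    have h1 : ((H / Pr : ℕ) : ℝ) ≤ H / Pr := Nat.cast_div_le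
    have h2 : (1 : ℝ) ≤ H / Pr := by
      rw [le_div_iff₀ (by linarith)]
      linarith
    rw [hN]
    push_cast
    linarith
  have hlogN : Cs * Real.log z * (1 + Real.log (Real.log z)) ≤ Real.log N := by
    have h1 : Real.log ((H : ℝ) / Pr) ≤ Real.log N :=
      Real.log_le_log (by positivity) hNge
    rw [Real.log_div (by linarith) (by linarith)] at h1
    rw [mul_assoc, ← hLL]
    linarith
  -- congruences
  have hcongr : ∀ n ∈ A, n₁ + Pr * (n / Pr) = n := by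
    intro n hn
    have hn' := hAmem n hn
    have h1 : ∀ p ∈ U, (p : ℤ) ∣ (n : ℤ) - n₀ := by
      intro p hp
      obtain ⟨i, hi⟩ := hUmem p hp
      obtain ⟨hpp, -, hpc⟩ := hUprime p hp
      have h2 := ((hn'.2.2 i).2.1 p hi).2.2.1
      have h3 := ((hn₀'.2.2 i).2.1 p hi).2.2.1
      have h4 : (p : ℤ) ∣ (a i : ℤ) * ((n : ℤ) - n₀) := by
        have h5 : (a i : ℤ) * ((n : ℤ) - n₀) = ((a i * n + b i : ℕ) : ℤ) - ((a i * n₀ + b i : ℕ) : ℤ) := by
          push_cast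
          ring
        rw [h5]
        exact dvd_sub (by exact_mod_cast h2) (by exact_mod_cast h3)
      rcases (Nat.prime_iff_prime_int.1 hpp).dvd_or_dvd h4 with h5 | h5
      · exfalso
        exact hpc ((Int.natCast_dvd_natCast.1 h5).trans (hS.a_dvd i))
      · exact h5
    have h2 : Pr ∣ ((n : ℤ) - n₀).natAbs := by
      rw [hPr]
      refine prod_primes_dvd _ (fun p hp => (hUprime p hp).1.prime) fun p hp => ?_
      exact Int.natCast_dvd.1 (h1 p hp)
    have h3 : (Pr : ℤ) ∣ (n : ℤ) - n₀ := Int.natCast_dvd.2 h2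
    have h4 : n₀ ≡ n [MOD Pr] := Nat.modEq_iff_dvd.2 h3
    have h5 : n₀ % Pr = n % Pr := h4
    rw [hn₁, h5]
    exact Nat.mod_add_div n Pr
  obtain ⟨S, hSS⟩ : ∃ S : Finset ℕ, S = (PI 0 z).filter (fun q => ¬ q ∣ c ∧ q ∉ U) := ⟨_, rfl⟩
  have hSmem : ∀ q ∈ S, q.Prime ∧ q ≤ z ∧ ¬ q ∣ c ∧ q ∉ U := by
    intro q hq
    rw [hSS] at hq
    simp only [PI, mem_filter, mem_Ioc] at hq
    exact ⟨hq.1.2, hq.1.1.2, hq.2.1, hq.2.2⟩
  obtain ⟨B, hB⟩ : ∃ B : ℕ → ℕ → Prop, B = fun q t => ∃ i, Bc (T i) k (Cb i) (ps i) q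
      (a i * (n₁ + Pr * t) + b i) := ⟨_, rfl⟩
  have hcop : ∀ q ∈ S, Pr.Coprime q := by
    intro q hq
    obtain ⟨h1, -, -, h4⟩ := hSmem q hq
    rw [hPr]
    apply Nat.Coprime.prod_left
    intro p hp
    refine (Nat.coprime_primes (hUprime p hp).1 h1).2 (fun hh => ?_)
    exact h4 (hh ▸ hp)
  have hdens : ∀ q ∈ S, (((range (q ^ 2)).filter (fun t => B q t)).card : ℝ) / (q : ℝ) ^ 2 =
      ∑ i, mu (T i) k (Cb i) (ps i) q := by
    intro q hq
    obtain ⟨h1, -, h3, -⟩ := hSmem q hq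
    exact dens0 hAFF hMUP hG hS k Cb ps q Pr n₁ h1 h3 (hcop q hq) B (fun t => by rw [hB])
  have hsv := hsieve z N s hz hlogN S B (fun q hq => ⟨(hSmem q hq).1, (hSmem q hq).2.1⟩) (by
      intro q hq t
      obtain ⟨h1, -, h3, -⟩ := hSmem q hq
      rw [hB]
      refine exists_congr fun i => ?_
      have hper := (hMUP (T i) c (κ i) (hG i) k (Cb i) (ps i) q h1 h3).2
      rw [show a i * (n₁ + Pr * (t + q ^ 2)) + b i = (a i * (n₁ + Pr * t) + b i) +
        (a i * Pr) * q ^ 2 by ring]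
      exact per_mul hper _ _) (by
      intro q hq
      obtain ⟨h1, -, h3, -⟩ := hSmem q hq
      rw [hdens q hq]
      calc ∑ i, mu (T i) k (Cb i) (ps i) q ≤ ∑ i, ((κ i : ℝ) + 1) / q :=
            sum_le_sum fun i _ => (hMUP (T i) c (κ i) (hG i) k (Cb i) (ps i) q h1 h3).1
        _ = (∑ i, ((κ i : ℝ) + 1)) / q := by rw [sum_div]
        _ ≤ κ' / q := by
            apply div_le_div_of_nonneg_right _ (Nat.cast_nonneg q)
            rw [hκ']
            linarith)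
  rw [sum_congr rfl hdens, sum_comm] at hsv
  -- the injection
  have hcount : (A.ncard : ℝ) ≤
      (((Ico s (s + N)).filter (fun n => ∀ p ∈ S, ¬ B p n)).card : ℝ) := by
    have hinj : Set.InjOn (fun n => n / Pr) A := by
      intro n hn m hm h
      rw [← hcongr n hn, ← hcongr m hm]
      simp only at h
      rw [h]
    rw [← Set.ncard_image_of_injOn hinj, ← Set.ncard_coe_finset]
    have hsub : (fun n => n / Pr) '' A ⊆
        (((Ico s (s + N)).filter (fun n => ∀ p ∈ S, ¬ B p n) : Finset ℕ) : Set ℕ) := by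
      rintro t ⟨n, hn, rfl⟩
      have hn' := hAmem n hn
      simp only [coe_filter, mem_Ico, Set.mem_ofPred_eq]
      refine ⟨⟨?_, ?_⟩, ?_⟩
      · rw [hs]
        exact Nat.div_le_div_right (by omega)
      · rw [Nat.div_lt_iff_lt_mul hPr0, hs, hN]
        have h1 := Nat.lt_mul_div_succ (x + 1) hPr0
        have h2 := Nat.lt_mul_div_succ H hPr0
        have h3 : ((x + 1) / Pr + (H / Pr + 2)) * Pr = Pr * ((x + 1) / Pr + 1) +
          Pr * (H / Pr + 1) := by ring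
        rw [h3]
        have := hn'.2.1
        omega
      · intro q hq hBq
        rw [hB] at hBq
        obtain ⟨i, hi⟩ := hBq
        rw [hcongr n hn] at hi
        obtain ⟨h1, h2, h3, h4⟩ := hSmem q hq
        rcases hi with ⟨hi1, hi2, hi3⟩ | ⟨hi1, hi2, ⟨p, hp, hpq⟩, hi4⟩
        · apply h4
          apply hUsub i
          refine (hn'.2.2 i).2.2 q ⟨h1, h3, hi2, hi3⟩ ?_
          rcases hi1 with h | h
          · exact Or.inl ⟨h, h2⟩
          · exact Or.inr h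
        · exact (hn'.2.2 i).1 p q ((hn'.2.2 i).2.1 p hp) h1 h3 hi4 hpq
    exact_mod_cast Set.ncard_le_ncard hsub (finite_toSet _)
  refine hcount.trans (hsv.trans ?_)
  -- the lower bound
  have hlo : D * Real.log (Real.log z) - ∑ i, Cl i ≤
      ∑ i, ∑ q ∈ S, mu (T i) k (Cb i) (ps i) q := by
    rw [hD, sum_mul, ← sum_sub_distrib]
    refine sum_le_sum fun i _ => ?_
    rw [hSS]
    exact hlow i z hz (ps i) U (hUsub i) hUcard (hps i).1 (hps i).2
  have hexpo : Real.exp (-∑ i, ∑ q ∈ S, mu (T i) k (Cb i) (ps i) q) ≤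
      E * (Real.log z) ^ (-D) := by
    rw [hE, Real.rpow_def_of_pos hlz0, ← Real.exp_add]
    apply Real.exp_le_exp.2
    linarith
  have hHP0 : (0 : ℝ) ≤ H / Pr := by positivity
  calc Cs * (N : ℝ) * Real.exp (-∑ i, ∑ q ∈ S, mu (T i) k (Cb i) (ps i) q)
      ≤ Cs * (3 * (H / Pr)) * (E * (Real.log z) ^ (-D)) := by
        gcongr
    _ = (3 * Cs * E) * (H / Pr) * (Real.log z) ^ (-D) := by ring
    _ ≤ (3 * Cs * E + Cs + r * k + 1) * (H / Pr) * (Real.log z) ^ (-D) := by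
        apply mul_le_mul_of_nonneg_right _ hrp.le
        apply mul_le_mul_of_nonneg_right _ hHP0
        linarith

end Pool.Agent.T2H45.OT
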