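import Pool.Agent.T2H45.OT.Stm

set_option autoImplicit false

noncomputable section

namespace Pool.Agent.T2H45.OT

open Finset

namespace PkgFIN

lemma oal (a L : ℝ) (ha : 0 < a) (hL : 1 ≤ L) : 1 + Real.log L ≤ (1 + 1 / a) * L ^ a := by
  have h1 := Real.log_le_rpow_div (by linarith : 0 ≤ L) ha
  have h2 : 1 ≤ L ^ a := Real.one_le_rpow hL ha.le
  have h3 : (1 + 1 / a) * L ^ a = L ^ a + L ^ a / a := by ring
  rw [h3]; linarith

end PkgFIN

open PkgFIN

theorem pFIN : S_FIN := by
  intro F m δ ε hε hδ hF ⟨C1, hC1, H⟩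
  set a : ℝ := ε / (2 * (m + 1)) with ha
  have ha0 : 0 < a := by positivity
  set b : ℝ := ε / (2 * (δ + 1)) with hb
  have hb0 : 0 < b := by positivity
  have ham : a * m ≤ ε / 2 := by
    rw [ha, div_mul_eq_mul_div, div_le_div_iff₀ (by positivity) (by norm_num)]
    nlinarith
  have hbd : b * δ ≤ ε / 2 := by
    rw [hb, div_mul_eq_mul_div, div_le_div_iff₀ (by positivity) (by norm_num)]
    nlinarith
  set C2 : ℝ := C1 * (1 + 1 / a) ^ m * ((2 * C1) ^ δ * (1 + 1 / b) ^ δ) with hC2
  have hC20 : 0 < C2 := by positivity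
  set C3 : ℝ := (36 * C1 ^ 2) ^ δ with hC3
  have hC30 : 0 < C3 := by positivity
  refine ⟨C2 + C3, by positivity, fun x X hX => ?_⟩
  have hX3 : (3 : ℝ) ≤ X := by exact_mod_cast hX
  have hX0 : (0 : ℝ) < X := by linarith
  set L := Real.log X with hL
  have hL1 : 1 ≤ L := by
    rw [hL, Real.le_log_iff_exp_le hX0]
    have := Real.exp_one_lt_d9
    linarith
  have hL0 : 0 < L := by linarith
  have hLpow : 0 < L ^ (ε - δ) := Real.rpow_pos_of_pos hL0 _
  have hlogL : 0 ≤ Real.log L := Real.log_nonneg hL1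
  by_cases hbig : L < 36 * C1 ^ 2
  · -- trivial bound
    have h1 : (F x X : ℝ) ≤ X := by exact_mod_cast hF x X
    refine h1.trans ?_
    have h4 : L ^ (-δ) ≤ L ^ (ε - δ) :=
      Real.rpow_le_rpow_of_exponent_le hL1 (by linarith)
    have h5 : 1 ≤ C3 * L ^ (ε - δ) := by
      have h6 : L ^ δ ≤ C3 := Real.rpow_le_rpow hL0.le hbig.le hδ
      calc (1 : ℝ) = L ^ δ * L ^ (-δ) := by
            rw [← Real.rpow_add hL0]; simp
        _ ≤ C3 * L ^ (ε - δ) := mul_le_mul h6 h4 (by positivity) (by positivity)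
    have h6 : (C2 + C3) * X * L ^ (ε - δ) =
        X * (C3 * L ^ (ε - δ)) + C2 * X * L ^ (ε - δ) := by ring
    rw [h6]
    have h7 : 0 ≤ C2 * X * L ^ (ε - δ) := by positivity
    nlinarith
  · push Not at hbig
    -- the choice of `z`
    set s : ℝ := L / (C1 * (1 + Real.log L)) with hs
    have hden : 0 < C1 * (1 + Real.log L) := by positivity
    have hs2 : 2 ≤ s := by
      rw [hs, le_div_iff₀ hden]
      have h1 := oal (1 / 2) L (by norm_num) hL1
      rw [← Real.sqrt_eq_rpow] at h1
      have h2 : 6 * C1 ≤ Real.sqrt L := by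
        apply Real.le_sqrt_of_sq_le
        nlinarith
      have h3 : Real.sqrt L * Real.sqrt L = L := Real.mul_self_sqrt hL0.le
      have h5 : (0:ℝ) ≤ Real.sqrt L := Real.sqrt_nonneg _
      have h4 : 1 + Real.log L ≤ 3 * Real.sqrt L := by
        have : (1 + 1 / (1 / 2 : ℝ)) = 3 := by norm_num
        rw [this] at h1
        exact h1
      calc 2 * (C1 * (1 + Real.log L)) ≤ 2 * (C1 * (3 * Real.sqrt L)) := by
            apply mul_le_mul_of_nonneg_left _ (by norm_num)
            exact mul_le_mul_of_nonneg_left h4 (by linarith)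
        _ = (6 * C1) * Real.sqrt L := by ring
        _ ≤ Real.sqrt L * Real.sqrt L := mul_le_mul_of_nonneg_right h2 h5
        _ = L := h3
    set z : ℕ := ⌊Real.exp s⌋₊ with hz
    have hexps : 4 ≤ Real.exp s := by
      have h1 : Real.exp 2 ≤ Real.exp s := Real.exp_le_exp.2 hs2
      have h2 : Real.exp 2 = Real.exp 1 * Real.exp 1 := by rw [← Real.exp_add]; norm_num
      have h3 := Real.exp_one_gt_d9
      nlinarith
    have hz4 : 4 ≤ z := by
      rw [hz]
      exact Nat.le_floor (by exact_mod_cast hexps)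
    have hz3 : 3 ≤ z := by omega
    have hz0 : (0 : ℝ) < z := by
      have : 0 < z := by omega
      exact_mod_cast this
    have hzle : (z : ℝ) ≤ Real.exp s := Nat.floor_le (Real.exp_pos s).le
    have hzge : Real.exp s / 2 ≤ z := by
      have h1 : Real.exp s < z + 1 := Nat.lt_floor_add_one _
      linarith
    have hlogz_le : Real.log z ≤ s := by
      have := Real.log_le_log hz0 hzle
      rwa [Real.log_exp] at this
    have hlogz_ge : s / 2 ≤ Real.log z := by
      have h1 := Real.log_le_log (by positivity) hzge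
      rw [Real.log_div (Real.exp_pos s).ne' (by norm_num), Real.log_exp] at h1
      have h2 : Real.log 2 ≤ 1 := by
        have := Real.log_two_lt_d9
        linarith
      linarith
    have hlogz1 : 1 ≤ Real.log z := by linarith
    have hlogz0 : 0 < Real.log z := by linarith
    have hsL : s ≤ L := by
      rw [hs]
      apply div_le_self hL0.le
      nlinarith
    have hll : Real.log (Real.log z) ≤ Real.log L :=
      Real.log_le_log hlogz0 (hlogz_le.trans hsL)
    have hll0 : 0 ≤ Real.log (Real.log z) := Real.log_nonneg hlogz1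
    have hcond : C1 * Real.log z * (1 + Real.log (Real.log z)) ≤ Real.log X := by
      calc C1 * Real.log z * (1 + Real.log (Real.log z)) ≤ C1 * s * (1 + Real.log L) := by
            apply mul_le_mul _ (by linarith) (by linarith) (by positivity)
            exact mul_le_mul_of_nonneg_left hlogz_le (by linarith)
        _ = L := by
            rw [hs]
            field_simp
    have h1 := H z x X hz3 hcond
    refine h1.trans ?_
    -- estimate the factors
    have e1 : (1 + Real.log (Real.log z)) ^ m ≤ (1 + 1 / a) ^ m * L ^ (ε / 2) := by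
      have f1 := oal a L ha0 hL1
      calc (1 + Real.log (Real.log z)) ^ m ≤ (1 + Real.log L) ^ m :=
            pow_le_pow_left₀ (by linarith) (by linarith) m
        _ ≤ ((1 + 1 / a) * L ^ a) ^ m := pow_le_pow_left₀ (by linarith) f1 _
        _ = (1 + 1 / a) ^ m * L ^ (a * m) := by
            rw [mul_pow, ← Real.rpow_natCast (L ^ a), ← Real.rpow_mul hL0.le]
        _ ≤ (1 + 1 / a) ^ m * L ^ (ε / 2) := by
            apply mul_le_mul_of_nonneg_left _ (by positivity)
            exact Real.rpow_le_rpow_of_exponent_le hL1 ham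
    have e2 : (Real.log z) ^ (-δ) ≤
        ((2 * C1) ^ δ * (1 + 1 / b) ^ δ) * L ^ (ε / 2 - δ) := by
      have f1 : (Real.log z) ^ (-δ) ≤ (s / 2) ^ (-δ) :=
        Real.rpow_le_rpow_of_nonpos (by linarith) hlogz_ge (by linarith)
      refine f1.trans ?_
      have f2 : s / 2 = L / ((2 * C1) * (1 + Real.log L)) := by
        rw [hs, div_div]
        ring_nf
      rw [f2, Real.div_rpow hL0.le (by positivity), Real.rpow_neg (by positivity) δ,
        Real.rpow_neg (by positivity) δ]
      rw [div_inv_eq_mul, Real.mul_rpow (by positivity) (by positivity)]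
      have f3 := oal b L hb0 hL1
      have f4 : (1 + Real.log L) ^ δ ≤ (1 + 1 / b) ^ δ * L ^ (ε / 2) := by
        calc (1 + Real.log L) ^ δ ≤ ((1 + 1 / b) * L ^ b) ^ δ :=
              Real.rpow_le_rpow (by linarith) f3 hδ
          _ = (1 + 1 / b) ^ δ * L ^ (b * δ) := by
              rw [Real.mul_rpow (by positivity) (by positivity), ← Real.rpow_mul hL0.le]
          _ ≤ (1 + 1 / b) ^ δ * L ^ (ε / 2) := by
              apply mul_le_mul_of_nonneg_left _ (by positivity)
              exact Real.rpow_le_rpow_of_exponent_le hL1 hbd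
      have f5 : L ^ (ε / 2 - δ) = (L ^ δ)⁻¹ * L ^ (ε / 2) := by
        rw [← Real.rpow_neg hL0.le, ← Real.rpow_add hL0]; congr 1; ring
      rw [f5]
      calc (L ^ δ)⁻¹ * ((2 * C1) ^ δ * (1 + Real.log L) ^ δ)
          ≤ (L ^ δ)⁻¹ * ((2 * C1) ^ δ * ((1 + 1 / b) ^ δ * L ^ (ε / 2))) := by gcongr
        _ = _ := by ring
    calc C1 * X * (1 + Real.log (Real.log z)) ^ m * (Real.log z) ^ (-δ)
        ≤ C1 * X * ((1 + 1 / a) ^ m * L ^ (ε / 2)) *
            (((2 * C1) ^ δ * (1 + 1 / b) ^ δ) * L ^ (ε / 2 - δ)) := by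
          apply mul_le_mul _ e2 (by positivity) (by positivity)
          exact mul_le_mul_of_nonneg_left e1 (by positivity)
      _ = C2 * X * (L ^ (ε / 2) * L ^ (ε / 2 - δ)) := by rw [hC2]; ring
      _ = C2 * X * L ^ (ε - δ) := by
          rw [← Real.rpow_add hL0]
          congr 2
          ring
      _ ≤ (C2 + C3) * X * L ^ (ε - δ) := by
          apply mul_le_mul_of_nonneg_right _ hLpow.le
          apply mul_le_mul_of_nonneg_right _ hX0.le
          linarith

end Pool.Agent.T2H45.OT
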