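import Pool.Agent.T2H45.OT.Stm
import Pool.Agent.Y346.SG.BK
import Pool.Agent.Y346.SG.DSG
import Pool.Agent.Y79.SG2.Low

/-!
# Package GS : the tests of the Singer parameters are good
-/

set_option autoImplicit false

noncomputable section

namespace Pool.Agent.T2H45.OT

open Finset
open Pool.Agent.H951R4.OD (ch PI Ex fl cl)
open Pool.Agent.Y346.SG.DS (datG)
open Pool.Agent.Y346.SG (AxG S_BK)
open scoped Classical

namespace PkgGS

theorem tau_prime {L : ℕ} (hL : L.Prime) : (datG L 0).τ = 1 := by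
  have h2 : (datG L 0).τ = ((L.divisors.filter (fun d => 1 < d)).card : ℝ) := by
    unfold datG Pool.Agent.W114.PQ.datS
    congr!
  rw [h2]
  have h3 : L.divisors.filter (fun d => 1 < d) = {L} := by
    ext d
    rw [mem_filter, Nat.mem_divisors, mem_singleton]
    constructor
    · rintro ⟨⟨h, _⟩, h1⟩
      exact ((Nat.dvd_prime hL).1 h).resolve_left (by omega)
    · rintro rfl
      exact ⟨⟨dvd_rfl, hL.ne_zero⟩, hL.one_lt⟩
  rw [h3]
  simp

theorem axL {L : ℕ} (hL : L.Prime) (h3 : 3 ≤ L) : AxG (datG L 0) :=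
  Pool.Agent.Y346.SG.DS.ax Pool.Agent.Y79.SG2.low (hL.odd_of_ne_two (by omega)) h3 0 (Or.inl rfl)

theorem bkh {L : ℕ} (hL : L.Prime) (h3 : 3 ≤ L) {c : ℕ} (hc : 0 < c) (hLc : 6 * L ∣ c) :
    BKh c L (datG L 0).ρ := by
  intro k
  have hax := axL hL h3
  obtain ⟨C, hC, H⟩ := Pool.Agent.Y346.SG.BK.bk (datG L 0) hax k
  have hρ : ∀ q, 0 ≤ (datG L 0).ρ q ∧ (datG L 0).ρ q ≤ L := hax.rho_up
  refine ⟨C + L * c, by have : (0 : ℝ) ≤ L * c := by positivity
                        linarith, fun ps hps hpp y z hy hyz => ?_⟩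
  have h0 : 0 ≤ (∏ p ∈ ps, (p : ℝ)) ^ 2 := by positivity
  have hy' : C * (∏ p ∈ ps, (p : ℝ)) ^ 2 ≤ y := by
    refine le_trans ?_ hy
    apply mul_le_mul_of_nonneg_right _ h0
    have : (0 : ℝ) ≤ L * c := by positivity
    linarith
  have h1 := H ps hps hpp y z hy' hyz
  have hτ := tau_prime hL
  have hκ : (datG L 0).κ = (L : ℝ) := rfl
  have hc0 : (datG L 0).c0 = 6 * L := rfl
  rw [hτ, hκ] at h1
  simp only [hc0] at h1
  set A := (PI y z).filter (fun q => ¬ q ∣ 6 * L ∧ ∃ p ∈ ps, ch (p : ℤ) q = -1) with hA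
  set B := (PI y z).filter (fun q => ¬ q ∣ c ∧ ∃ p ∈ ps, ch (p : ℤ) q = -1) with hB
  have hsub : A ⊆ B ∪ c.divisors := by
    intro q hq
    rw [hA, mem_filter] at hq
    rw [mem_union, hB, mem_filter]
    by_cases h : q ∣ c
    · exact Or.inr (Nat.mem_divisors.2 ⟨h, hc.ne'⟩)
    · exact Or.inl ⟨hq.1, h, hq.2.2⟩
  have hterm : ∀ q : ℕ, 0 ≤ (datG L 0).ρ q / q := fun q =>
    div_nonneg (hρ q).1 (Nat.cast_nonneg q)
  have h2 : ∑ q ∈ A, (datG L 0).ρ q / q ≤ ∑ q ∈ B, (datG L 0).ρ q / q +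
      ∑ q ∈ c.divisors, (datG L 0).ρ q / q :=
    (Finset.sum_le_sum_of_subset_of_nonneg hsub fun q _ _ => hterm q).trans
      (by
        rw [← Finset.sum_union_inter]
        have := Finset.sum_nonneg (s := B ∩ c.divisors) fun q _ => hterm q
        linarith)
  have h3' : ∑ q ∈ c.divisors, (datG L 0).ρ q / q ≤ L * c := by
    have h4 : ∀ q ∈ c.divisors, (datG L 0).ρ q / q ≤ L := by
      intro q hq
      have hq1 : 1 ≤ q := Nat.pos_of_mem_divisors hq
      have hq2 : (1 : ℝ) ≤ q := by exact_mod_cast hq1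
      rw [div_le_iff₀ (by linarith)]
      have := (hρ q).2
      have hL0 : (0 : ℝ) ≤ L := Nat.cast_nonneg _
      nlinarith
    refine (Finset.sum_le_card_nsmul _ _ _ h4).trans ?_
    rw [nsmul_eq_mul, mul_comm]
    apply mul_le_mul_of_nonneg_left _ (Nat.cast_nonneg _)
    exact_mod_cast Nat.card_divisors_le_self c
  linarith

end PkgGS

open PkgGS

theorem pGS (hLOW : S_LOW) : S_GS := by
  intro L hL h3 c hc hLc
  have hax := axL hL h3
  have hnc : ∀ q : ℕ, ¬ q ∣ c → ¬ q ∣ (datG L 0).c0 := fun q hq h => hq (h.trans hLc)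
  refine
    { c_pos := hc, κ_pos := hL.one_lt.le, per := hax.per, cnt := ?_, low := ?_ }
  · intro q hq hqc
    have h1 := hax.cnt q hq (hnc q hqc)
    have hL1 : L.divisors.filter (fun d => 1 < d) = {L} := by
      ext d
      rw [mem_filter, Nat.mem_divisors, mem_singleton]
      constructor
      · rintro ⟨⟨h, _⟩, h1⟩
        exact ((Nat.dvd_prime hL).1 h).resolve_left (by omega)
      · rintro rfl
        exact ⟨⟨dvd_rfl, hL.ne_zero⟩, hL.one_lt⟩
    have h2 : (datG L 0).ρ q ≤ (L : ℝ) - 1 := by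
      have e : (datG L 0).ρ q = ∑ d ∈ L.divisors.filter (fun d => 1 < d),
        (if q % d = 1 then (d.totient : ℝ) else 0) := by
        unfold datG Pool.Agent.W114.PQ.datS
        congr!
      rw [e, hL1, Finset.sum_singleton]
      have hL2 : (1 : ℝ) ≤ L := by exact_mod_cast hL.one_lt.le
      split_ifs
      · rw [Nat.totient_prime hL, Nat.cast_sub hL.one_lt.le]
        simp
      · linarith
    have hκ : (datG L 0).κ = (L : ℝ) := rfl
    rw [hκ] at h1
    have h4 := (abs_le.1 h1).2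
    rcases Nat.lt_or_ge q L with hqL | hqL
    · -- `q < L`: no element of order `L`
      have : (range (q ^ 2)).filter (fun n => TL L q n) = ∅ := by
        rw [Finset.filter_eq_empty_iff]
        rintro n _ ⟨d, hd1, hd2, hd3⟩
        have hdL : d = L := ((Nat.dvd_prime hL).1 hd2).resolve_left (by omega)
        have : Fact q.Prime := ⟨hq⟩
        have hn0 : (n : ZMod q) ≠ 0 := by
          intro h0
          rw [h0, orderOf_eq_zero] at hd3
          · omega
          · rw [isOfFinOrder_iff_pow_eq_one]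
            rintro ⟨m, hm, hm1⟩
            rw [zero_pow hm.ne'] at hm1
            exact zero_ne_one hm1
        have h5 : orderOf (n : ZMod q) ∣ q - 1 :=
          orderOf_dvd_of_pow_eq_one (ZMod.pow_card_sub_one_eq_one hn0)
        rw [hd3, hdL] at h5
        have := Nat.le_of_dvd (by have := hq.two_le; omega) h5
        omega
      rw [this]
      simp
    · have hq0 : (0 : ℝ) < q := by exact_mod_cast hq.pos
      have hqL' : (L : ℝ) ≤ q := by exact_mod_cast hqL
      have h6 : (((range (q ^ 2)).filter (fun n => (datG L 0).T q n)).card : ℝ) ≤ L * q := by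
        have : (q : ℝ) * (datG L 0).ρ q ≤ q * (L - 1) := mul_le_mul_of_nonneg_left h2 hq0.le
        nlinarith
      have h7 : ((range (q ^ 2)).filter (fun n => (datG L 0).T q n)).card ≤ L * q := by
        exact_mod_cast h6
      exact h7
  · exact hLOW (TL L) c L (datG L 0).ρ hc hL.one_lt.le hax.rho_up
      (fun q hq hqc => hax.cnt q hq (hnc q hqc)) (bkh hL h3 hc hLc)

end Pool.Agent.T2H45.OT
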