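import Pool.Agent.T2H45.OT.Stm
import Pool.Agent.H951R4.OD.D3

/-!
# Package LOW
-/

set_option autoImplicit false

noncomputable section

namespace Pool.Agent.T2H45.OT

open Finset
open Pool.Agent.H951R4.OD (ch PI Ex fl cl)
open scoped Classical

namespace PkgLOW

lemma mu_nonneg (T : ℕ → ℕ → Prop) (k Cb : ℕ) (ps : Finset ℕ) (q : ℕ) : 0 ≤ mu T k Cb ps q := by
  unfold mu
  positivity

lemma mu_small {T : ℕ → ℕ → Prop} {k Cb : ℕ} {ps : Finset ℕ} {q : ℕ} (hq : q.Prime)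
    (h : ps.card < k ∨ q ≤ ps.sup id) :
    1 / (q : ℝ) - 1 / (q : ℝ) ^ 2 ≤ mu T k Cb ps q := by
  have h1 := Pool.Agent.H951R4.OD.D2b_cnt1 hq
  rw [← Finset.sum_filter, Finset.sum_const, nsmul_eq_mul, mul_one] at h1
  have hq0 : (0 : ℝ) < q := by exact_mod_cast hq.pos
  have h2 : ((q : ℝ) - 1) ≤
      (((range (q ^ 2)).filter (fun n => Bc T k Cb ps q n)).card : ℝ) := by
    rw [← h1]
    exact_mod_cast Finset.card_le_card (by
      intro n hn
      rw [mem_filter] at hn ⊢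
      exact ⟨hn.1, Or.inl ⟨h, hn.2⟩⟩)
  unfold mu
  have e : 1 / (q : ℝ) - 1 / (q : ℝ) ^ 2 = ((q : ℝ) - 1) / (q : ℝ) ^ 2 := by
    field_simp
  rw [e]
  exact div_le_div_of_nonneg_right h2 (by positivity)

lemma mu_large {T : ℕ → ℕ → Prop} {κ : ℕ} {ρ : ℕ → ℝ} {k Cb : ℕ} {ps : Finset ℕ} {q : ℕ}
    (hq : q.Prime) (hk : ps.card = k) (hy : Cb * (∏ p ∈ ps, p) ^ 2 < q)
    (he : ∃ p ∈ ps, ch (p : ℤ) q = -1)
    (hT : |(((range (q ^ 2)).filter (fun n => T q n)).card : ℝ) - q * ρ q| ≤ κ) :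
    ρ q / q - κ * (1 / (q : ℝ) ^ 2) ≤ mu T k Cb ps q := by
  have hq0 : (0 : ℝ) < q := by exact_mod_cast hq.pos
  have h1 := (abs_le.1 hT).1
  have h2 : (((range (q ^ 2)).filter (fun n => T q n)).card : ℝ) ≤
      (((range (q ^ 2)).filter (fun n => Bc T k Cb ps q n)).card : ℝ) := by
    exact_mod_cast Finset.card_le_card (by
      intro n hn
      rw [mem_filter] at hn ⊢
      exact ⟨hn.1, Or.inr ⟨hk, hy, he, hn.2⟩⟩)
  unfold mu
  have e : ρ q / q - κ * (1 / (q : ℝ) ^ 2) = (q * ρ q - κ) / (q : ℝ) ^ 2 := by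
    field_simp
  rw [e]
  exact div_le_div_of_nonneg_right (by linarith) (by positivity)

end PkgLOW

open PkgLOW

theorem pLOW : S_LOW := by
  intro T c κ ρ hc hκ hρ hT hBK k m hk hκk
  obtain ⟨Cbk, hCbk, hbad⟩ := hBK k
  choose Cs hCs0 hCs using Pool.Agent.H951R4.OD.D2b_small c hc
  obtain ⟨Cq, hCq, hsq⟩ := Pool.Agent.H951R4.OD.sum_sq_inv
  set Cb : ℕ := ⌈Cbk⌉₊ with hCb
  have hCb1 : Cbk ≤ Cb := Nat.le_ceil _
  have hCb3 : (3 : ℝ) ≤ Cb := hCbk.trans hCb1
  set Ca : ℝ := ∑ j ∈ range (m + 1), Cs j with hCa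
  have hCa0 : 0 ≤ Ca := Finset.sum_nonneg fun j _ => hCs0 j
  have hCaj : ∀ j, j ≤ m → Cs j ≤ Ca := fun j hj =>
    Finset.single_le_sum (fun i _ => hCs0 i) (Finset.mem_range.2 (by omega))
  set K : ℝ := Real.log Cb + 2 * k with hK
  have hkr : (1 : ℝ) ≤ k := by exact_mod_cast hk
  have hlogCb : 0 < Real.log Cb := Real.log_pos (by linarith)
  have hK1 : 1 ≤ K := by rw [hK]; linarith
  have hlogK : 0 ≤ Real.log K := Real.log_nonneg hK1
  have hκ1 : (1 : ℝ) ≤ κ := by exact_mod_cast hκ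
  have h2k : (κ : ℝ) < 2 ^ k := by exact_mod_cast hκk
  have h2k0 : (0 : ℝ) < 2 ^ k := by positivity
  set δ : ℝ := 1 - (κ : ℝ) / 2 ^ k with hδ
  have hδ0 : 0 < δ := by
    rw [hδ, sub_pos, div_lt_one h2k0]; exact h2k
  have hδ1 : δ ≤ 1 := by
    rw [hδ]
    have : 0 ≤ (κ : ℝ) / 2 ^ k := by positivity
    linarith
  refine ⟨Cb, Ca + Cbk + m * κ + κ * Cq + δ * Real.log K, ?_⟩
  intro z hz ps U hpsU hUm hpk hps
  have hz3 : (3 : ℝ) ≤ z := by exact_mod_cast hz
  have hexp1 : Real.exp 1 < 3 := by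
    have := Real.exp_one_lt_d9
    linarith
  have hlz : 1 ≤ Real.log z := by
    rw [Real.le_log_iff_exp_le (by linarith)]; linarith
  have hllz : 0 ≤ Real.log (Real.log z) := Real.log_nonneg hlz
  have hm0 : (0 : ℝ) ≤ m * κ := by positivity
  have hq0 : (0 : ℝ) ≤ κ * Cq := by positivity
  have hK0 : 0 ≤ δ * Real.log K := by positivity
  rcases lt_or_eq_of_le hpk with hlt | heq
  · -- all the primes are sieved
    have h1 := hCs U.card U rfl z (by omega)
    have e1 : max z 3 = z := by omega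
    rw [e1] at h1
    have h2 : ∑ r ∈ (PI 0 z).filter (fun r => ¬ r ∣ c ∧ r ∉ U), (1 / (r : ℝ) - 1 / (r : ℝ) ^ 2) ≤
        ∑ r ∈ (PI 0 z).filter (fun r => ¬ r ∣ c ∧ r ∉ U), mu T k Cb ps r := by
      refine Finset.sum_le_sum fun r hr => mu_small ?_ (Or.inl hlt)
      simp only [PI, mem_filter] at hr
      exact hr.1.2
    have h3 := hCaj U.card hUm
    have h4 : δ * Real.log (Real.log z) ≤ 1 * Real.log (Real.log z) :=
      mul_le_mul_of_nonneg_right hδ1 hllz
    linarith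
  · set Pr : ℕ := ∏ p ∈ ps, p with hPr
    set P : ℕ := ps.sup id with hP
    have hne : ps.Nonempty := by
      rw [← Finset.card_pos]; omega
    obtain ⟨P0, hP0, hP0'⟩ := Finset.exists_mem_eq_sup ps hne id
    have hPP0 : P = P0 := hP0'
    have hPmem : P ∈ ps := by rw [hPP0]; exact hP0
    have hPprime : P.Prime := (hps P hPmem).1
    have hPz : P ≤ z := (hps P hPmem).2
    have hleP : ∀ p ∈ ps, p ≤ P := fun p hp => Finset.le_sup (f := id) hp
    have hPr0 : 0 < Pr := Finset.prod_pos fun p hp => (hps p hp).1.pos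
    have hPPr : P ≤ Pr := Nat.le_of_dvd hPr0 (Finset.dvd_prod_of_mem _ hPmem)
    have hPrP : Pr ≤ P ^ k := by
      have := Finset.prod_le_pow_card ps (fun p => p) P hleP
      rw [heq] at this
      exact this
    have hPrr : (1 : ℝ) ≤ Pr := by exact_mod_cast hPr0
    have hprod : (∏ p ∈ ps, (p : ℝ)) = (Pr : ℝ) := by rw [hPr]; push_cast; rfl
    set y : ℕ := Cb * Pr ^ 2 with hy
    have hyc : (y : ℝ) = Cb * (Pr : ℝ) ^ 2 := by rw [hy]; push_cast; ring
    have hy1 : Cbk * (Pr : ℝ) ^ 2 ≤ y := by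
      rw [hyc]; exact mul_le_mul_of_nonneg_right hCb1 (by positivity)
    have hPy : P ≤ y := by
      have h1 : (P : ℝ) ≤ Pr := by exact_mod_cast hPPr
      have h2 : (P : ℝ) ≤ y := by rw [hyc]; nlinarith
      exact_mod_cast h2
    have hyr : (3 : ℝ) ≤ y := by rw [hyc]; nlinarith
    set P3 : ℝ := ((max P 3 : ℕ) : ℝ) with hP3
    have hP33 : (3 : ℝ) ≤ P3 := by rw [hP3]; exact_mod_cast le_max_right _ _
    have hlP3 : 1 ≤ Real.log P3 := by
      rw [Real.le_log_iff_exp_le (by linarith)]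
      linarith
    have hlogy : Real.log y ≤ K * Real.log P3 := by
      have h2 : Real.log y = Real.log Cb + 2 * Real.log Pr := by
        rw [hyc, Real.log_mul (by positivity) (by positivity), Real.log_pow]
        norm_num
      have h3 : Real.log Pr ≤ k * Real.log P3 := by
        rw [← Real.log_pow]
        apply Real.log_le_log (by linarith)
        have h4 : (Pr : ℝ) ≤ (P : ℝ) ^ k := by exact_mod_cast hPrP
        refine h4.trans (pow_le_pow_left₀ (Nat.cast_nonneg _) ?_ k)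
        rw [hP3]; exact_mod_cast le_max_left _ _
      rw [hK, h2]
      nlinarith
    have hlogy0 : 0 < Real.log y := Real.log_pos (by linarith)
    have hlly : Real.log (Real.log y) ≤ Real.log K + Real.log (Real.log P3) := by
      rw [← Real.log_mul (by linarith) (by linarith)]
      exact Real.log_le_log hlogy0 hlogy
    have hA0 : 0 ≤ Real.log (Real.log P3) := Real.log_nonneg hlP3
    have hmw : 0 ≤ (1 - δ) * Real.log (Real.log P3) := mul_nonneg (by linarith) hA0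
    have h5 : δ * Real.log (Real.log y) ≤ δ * (Real.log K + Real.log (Real.log P3)) :=
      mul_le_mul_of_nonneg_left hlly hδ0.le
    -- the two sets
    set S1 : Finset ℕ := (PI 0 P).filter (fun r => ¬ r ∣ c ∧ r ∉ U) with hS1
    set S2 : Finset ℕ := ((PI y z).filter
      (fun q => ¬ q ∣ c ∧ ∃ p ∈ ps, ch (p : ℤ) q = -1)).filter (fun q => q ∉ U) with hS2
    have hmem1 : ∀ r ∈ S1, r.Prime ∧ 0 < r ∧ r ≤ P ∧ ¬ r ∣ c ∧ r ∉ U := by
      intro r hr
      simp only [hS1, PI, mem_filter, mem_Ioc] at hr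
      exact ⟨hr.1.2, hr.1.1.1, hr.1.1.2, hr.2.1, hr.2.2⟩
    have hmem2 : ∀ q ∈ S2, q.Prime ∧ y < q ∧ q ≤ z ∧ ¬ q ∣ c ∧ (∃ p ∈ ps, ch (p : ℤ) q = -1) ∧
        q ∉ U := by
      intro q hq
      simp only [hS2, PI, mem_filter, mem_Ioc] at hq
      exact ⟨hq.1.1.2, hq.1.1.1.1, hq.1.1.1.2, hq.1.2.1, hq.1.2.2, hq.2⟩
    have hdisj : Disjoint S1 S2 := by
      rw [Finset.disjoint_left]
      intro r h1 h2
      have := (hmem1 r h1).2.2.1
      have := (hmem2 r h2).2.1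
      omega
    have hsub : S1 ∪ S2 ⊆ (PI 0 z).filter (fun q => ¬ q ∣ c ∧ q ∉ U) := by
      intro q hq
      simp only [PI, mem_filter, mem_Ioc]
      rcases mem_union.1 hq with h | h
      · obtain ⟨h1, h2, h3, h4, h6⟩ := hmem1 q h
        exact ⟨⟨⟨h2, h3.trans hPz⟩, h1⟩, h4, h6⟩
      · obtain ⟨h1, h2, h3, h4, h6, h7⟩ := hmem2 q h
        exact ⟨⟨⟨by omega, h3⟩, h1⟩, h4, h7⟩
    have htot : ∑ q ∈ S1, mu T k Cb ps q + ∑ q ∈ S2, mu T k Cb ps q ≤
        ∑ q ∈ (PI 0 z).filter (fun q => ¬ q ∣ c ∧ q ∉ U), mu T k Cb ps q := by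
      rw [← Finset.sum_union hdisj]
      exact Finset.sum_le_sum_of_subset_of_nonneg hsub fun q _ _ => mu_nonneg _ _ _ _ _
    have hs1 : Real.log (Real.log P3) - Ca ≤ ∑ q ∈ S1, mu T k Cb ps q := by
      have h1 := hCs U.card U rfl P hPprime.two_le
      have h2 : ∑ r ∈ S1, (1 / (r : ℝ) - 1 / (r : ℝ) ^ 2) ≤ ∑ r ∈ S1, mu T k Cb ps r :=
        Finset.sum_le_sum fun r hr => mu_small (hmem1 r hr).1 (Or.inr (hmem1 r hr).2.2.1)
      have h3 := hCaj U.card hUm
      linarith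
    rcases Nat.lt_or_ge z y with hzy | hyz
    · have h2 : 0 ≤ ∑ q ∈ S2, mu T k Cb ps q := Finset.sum_nonneg fun q _ => mu_nonneg _ _ _ _ _
      have h3 : Real.log (Real.log z) ≤ Real.log (Real.log y) := by
        apply Real.log_le_log (by linarith)
        apply Real.log_le_log (by linarith)
        exact_mod_cast hzy.le
      have h4 : δ * Real.log (Real.log z) ≤ δ * Real.log (Real.log y) :=
        mul_le_mul_of_nonneg_left h3 hδ0.le
      linarith
    · have h2 := hbad ps heq (fun p hp => (hps p hp).1) y z (by rw [hprod]; exact hy1) hyz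
      rw [← Finset.sum_filter_add_sum_filter_not ((PI y z).filter
        (fun q => ¬ q ∣ c ∧ ∃ p ∈ ps, ch (p : ℤ) q = -1)) (fun q => q ∉ U), ← hS2] at h2
      have h3 : ∑ q ∈ ((PI y z).filter
          (fun q => ¬ q ∣ c ∧ ∃ p ∈ ps, ch (p : ℤ) q = -1)).filter (fun q => ¬ q ∉ U),
          ρ q / q ≤ m * κ := by
        have h6 : ∀ q ∈ ((PI y z).filter
            (fun q => ¬ q ∣ c ∧ ∃ p ∈ ps, ch (p : ℤ) q = -1)).filter (fun q => ¬ q ∉ U),
            ρ q / q ≤ κ := by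
          intro q hq
          simp only [PI, mem_filter, mem_Ioc] at hq
          have h7 : (1 : ℝ) ≤ q := by exact_mod_cast hq.1.1.2.one_lt.le
          rw [div_le_iff₀ (by linarith)]
          have h8 := (hρ q).2
          nlinarith
        have h7 := Finset.sum_le_card_nsmul _ _ _ h6
        rw [nsmul_eq_mul] at h7
        have h8 : (((PI y z).filter
            (fun q => ¬ q ∣ c ∧ ∃ p ∈ ps, ch (p : ℤ) q = -1)).filter (fun q => ¬ q ∉ U)).card ≤ m := by
          refine (Finset.card_le_card ?_).trans hUm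
          intro q hq
          rw [mem_filter] at hq
          exact not_not.1 hq.2
        have h9 : ((((PI y z).filter
            (fun q => ¬ q ∣ c ∧ ∃ p ∈ ps, ch (p : ℤ) q = -1)).filter (fun q => ¬ q ∉ U)).card : ℝ) ≤
              m := by exact_mod_cast h8
        exact h7.trans (mul_le_mul_of_nonneg_right h9 (by linarith))
      have h4 : ∑ q ∈ S2, (ρ q / q - κ * (1 / (q : ℝ) ^ 2)) ≤ ∑ q ∈ S2, mu T k Cb ps q :=
        Finset.sum_le_sum fun q hq => mu_large (hmem2 q hq).1 heq (hmem2 q hq).2.1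
          (hmem2 q hq).2.2.2.2.1 (hT q (hmem2 q hq).1 (hmem2 q hq).2.2.2.1)
      rw [Finset.sum_sub_distrib, ← Finset.mul_sum] at h4
      have h6 : (κ : ℝ) * ∑ q ∈ S2, 1 / (q : ℝ) ^ 2 ≤ κ * Cq :=
        mul_le_mul_of_nonneg_left (hsq S2) (by linarith)
      rw [Real.log_div (by linarith) (by linarith), mul_sub] at h2
      linarith

end Pool.Agent.T2H45.OT
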