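import Pool.Agent.T2H45.OT.Stm

/-! # Package MUP -/

set_option autoImplicit false

noncomputable section

namespace Pool.Agent.T2H45.OT

open Finset
open Pool.Agent.H951R4.OD (ch PI Ex fl cl)
open scoped Classical

namespace PkgMUP

lemma mult (q : ℕ) (hq : 0 < q) : ((range (q ^ 2)).filter (fun n => q ∣ n)).card ≤ q := by
  have h : (range (q ^ 2)).filter (fun n => q ∣ n) ⊆ (range q).image (fun j => q * j) := by
    intro n hn
    rw [Finset.mem_filter, Finset.mem_range] at hn
    obtain ⟨h1, k, rfl⟩ := hn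
    rw [Finset.mem_image]
    refine ⟨k, ?_, rfl⟩
    rw [Finset.mem_range]
    rw [pow_two] at h1
    exact Nat.lt_of_mul_lt_mul_left h1
  calc ((range (q ^ 2)).filter (fun n => q ∣ n)).card
      ≤ ((range q).image (fun j => q * j)).card := Finset.card_le_card h
    _ ≤ (range q).card := Finset.card_image_le
    _ = q := Finset.card_range q

end PkgMUP

theorem pMUP : S_MUP := by
  intro T c κ hG k Cb ps q hq hqc
  refine ⟨?_, ?_⟩
  · have hq0 : 0 < q := hq.pos
    have h1 : (range (q ^ 2)).filter (fun n => Bc T k Cb ps q n)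
        ⊆ (range (q ^ 2)).filter (fun n => q ∣ n) ∪ (range (q ^ 2)).filter (fun n => T q n) := by
      intro n hn
      rw [Finset.mem_filter] at hn
      rw [Finset.mem_union, Finset.mem_filter, Finset.mem_filter]
      rcases hn.2 with h | h
      · exact Or.inl ⟨hn.1, h.2.1⟩
      · exact Or.inr ⟨hn.1, h.2.2.2⟩
    have h2 : ((range (q ^ 2)).filter (fun n => Bc T k Cb ps q n)).card ≤ q + κ * q :=
      (Finset.card_le_card h1).trans ((Finset.card_union_le _ _).trans
        (Nat.add_le_add (PkgMUP.mult q hq0) (hG.cnt q hq hqc)))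
    have h3 : (((range (q ^ 2)).filter (fun n => Bc T k Cb ps q n)).card : ℝ)
        ≤ (q : ℝ) + κ * q := by
      exact_mod_cast h2
    have hq1 : (0 : ℝ) < q := by exact_mod_cast hq0
    unfold mu
    rw [div_le_div_iff₀ (by positivity) hq1]
    calc (((range (q ^ 2)).filter (fun n => Bc T k Cb ps q n)).card : ℝ) * q
        ≤ ((q : ℝ) + κ * q) * q := mul_le_mul_of_nonneg_right h3 hq1.le
      _ = (κ + 1) * (q : ℝ) ^ 2 := by ring
  · intro n
    unfold Bc
    have e1 : q ∣ n + q ^ 2 ↔ q ∣ n := by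
      rw [Nat.dvd_add_left (Dvd.intro_left q (by ring))]
    have e2 : q ^ 2 ∣ n + q ^ 2 ↔ q ^ 2 ∣ n := by
      rw [Nat.dvd_add_left (dvd_refl _)]
    rw [e1, e2, hG.per q n hq]

end Pool.Agent.T2H45.OT
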