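import Pool.Agent.T2H45.OT.Stm

/-!
# Package SP
-/

set_option autoImplicit false

noncomputable section

namespace Pool.Agent.T2H45.OT

open Finset
open Pool.Agent.H951R4.OD (ch PI Ex fl cl)

namespace PkgSP

lemma isInt_of_root {ω : ℂ} {L : ℕ} (hL : 0 < L) (h : ω ^ L = 1) : IsIntegral ℤ ω :=
  IsIntegral.of_pow hL (by rw [h]; exact isIntegral_one)

lemma nsq {ω : ℂ} {L : ℕ} (hL : L ≠ 0) (h : ω ^ L = 1) : ω.re ^ 2 + ω.im ^ 2 = 1 := by
  have hn : ‖ω‖ = 1 := Complex.norm_eq_one_of_pow_eq_one h hL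
  have h1 : Complex.normSq ω = 1 := by rw [Complex.normSq_eq_norm_sq, hn]; norm_num
  rw [Complex.normSq_apply] at h1
  nlinarith

/-- a root of unity of odd prime order with rational real part -/
lemma re_half {ω : ℂ} {L : ℕ} (hL : L.Prime) (hL3 : 3 ≤ L) (h : ω ^ L = 1) (h1 : ω ≠ 1) (r : ℚ)
    (hr : 2 * ω.re = (r : ℝ)) : 2 * ω.re = -1 := by
  have hsq := nsq hL.ne_zero h
  have hint : IsIntegral ℤ ((r : ℚ) : ℂ) := by
    have e : ((r : ℚ) : ℂ) = ω + (starRingEnd ℂ) ω := by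
      rw [Complex.add_conj, hr]
      push_cast
      rfl
    rw [e]
    exact (isInt_of_root hL.pos h).add (isInt_of_root hL.pos (by rw [← map_pow, h, map_one]))
  have hint' : IsIntegral ℤ r := by
    have h2 : IsIntegral ℤ (algebraMap ℚ ℂ r) := by simpa using hint
    exact (isIntegral_algebraMap_iff (algebraMap ℚ ℂ).injective).1 h2
  obtain ⟨t, ht⟩ := IsIntegrallyClosed.isIntegral_iff.1 hint'
  have ht' : 2 * ω.re = (t : ℝ) := by
    rw [hr, ← ht]
    simp
  have hq : ω ^ 2 = t * ω - 1 := by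
    apply Complex.ext
    · simp only [pow_two, Complex.mul_re, Complex.sub_re, Complex.one_re, Complex.intCast_re,
        Complex.intCast_im]
      rw [← ht']
      linear_combination -hsq
    · simp only [pow_two, Complex.mul_im, Complex.sub_im, Complex.one_im, Complex.intCast_re,
        Complex.intCast_im]
      rw [← ht']
      ring
  have hx1 : ω.re ≤ 1 := by nlinarith [sq_nonneg ω.im]
  have hx2 : -1 ≤ ω.re := by nlinarith [sq_nonneg ω.im]
  have hb1 : t ≤ 2 := by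
    have : (t : ℝ) ≤ 2 := by linarith
    exact_mod_cast this
  have hb2 : -2 ≤ t := by
    have : (-2 : ℝ) ≤ t := by linarith
    exact_mod_cast this
  have : Fact L.Prime := ⟨hL⟩
  have hord : orderOf ω = L := orderOf_eq_prime h h1
  have hdvd : ∀ m : ℕ, ω ^ m = 1 → L ∣ m := fun m hm => hord ▸ orderOf_dvd_of_pow_eq_one hm
  have hle2 : ω ^ 2 ≠ 1 := by
    intro h2
    have := Nat.le_of_dvd (by norm_num) (hdvd 2 h2)
    omega
  have hle4 : ω ^ 4 ≠ 1 := by
    intro h2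
    have h3 : L ∣ 2 ^ 2 := by simpa using hdvd 4 h2
    have h4 := hL.dvd_of_dvd_pow h3
    have := Nat.le_of_dvd (by norm_num) h4
    omega
  interval_cases t
  · exfalso
    have h3 : (ω + 1) ^ 2 = 0 := by
      push_cast at hq
      linear_combination hq
    have h4 : ω = -1 := by
      have := pow_eq_zero_iff (two_ne_zero) |>.1 h3
      linear_combination this
    apply hle2
    rw [h4]
    norm_num
  · rw [ht']; norm_num
  · exfalso
    apply hle4
    have h3 : ω ^ 4 = (ω ^ 2) ^ 2 := by ring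
    rw [h3, hq]
    push_cast
    ring
  · exfalso
    have h3 : ω ^ 3 = -1 := by
      push_cast at hq
      linear_combination (ω + 1) * hq
    have h4 : ω ^ 6 = 1 := by
      have : ω ^ 6 = (ω ^ 3) ^ 2 := by ring
      rw [this, h3]
      norm_num
    have h5 : L ∣ 2 * 3 := by simpa using hdvd 6 h4
    rcases (Nat.Prime.dvd_mul hL).1 h5 with h6 | h6
    · have := Nat.le_of_dvd (by norm_num) h6
      omega
    · have h7 : L = 3 := le_antisymm (Nat.le_of_dvd (by norm_num) h6) hL3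
      rw [h7, h3] at h
      norm_num at h
  · exfalso
    have h3 : (ω - 1) ^ 2 = 0 := by
      push_cast at hq
      linear_combination hq
    have := pow_eq_zero_iff (two_ne_zero) |>.1 h3
    exact h1 (by linear_combination this)

open Polynomial in
/-- the geometric sum -/
def GP (a b L : ℕ) : Polynomial ℤ := ∑ j ∈ range L, (C (a : ℤ) * X + C (b : ℤ)) ^ j

lemma GP_eval (a b L n : ℕ) : (GP a b L).eval (n : ℤ) =
    ∑ j ∈ range L, (((a * n + b : ℕ) : ℤ)) ^ j := by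
  unfold GP
  rw [Polynomial.eval_finsetSum]
  refine Finset.sum_congr rfl fun j _ => ?_
  simp only [Polynomial.eval_add, Polynomial.eval_pow, Polynomial.eval_mul, Polynomial.eval_C,
    Polynomial.eval_X]
  push_cast
  ring

lemma GP_aeval (a b L : ℕ) (z : ℂ) : Polynomial.aeval z (GP a b L) =
    ∑ j ∈ range L, ((a : ℂ) * z + b) ^ j := by
  unfold GP
  rw [map_sum]
  refine Finset.sum_congr rfl fun j _ => ?_
  simp

lemma root_of {ω : ℂ} {L : ℕ} (hL : 0 < L) (h : ∑ j ∈ range L, ω ^ j = 0) : ω ^ L = 1 ∧ ω ≠ 1 := by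
  constructor
  · have := mul_geom_sum ω L
    rw [h, mul_zero] at this
    linear_combination -this
  · rintro rfl
    simp at h
    omega

lemma no_common (a b a' b' L L' : ℕ) (ha : 0 < a) (ha' : 0 < a') (hab : a * b' ≠ a' * b)
    (hL : L.Prime) (hL' : L'.Prime) (hL3 : 3 ≤ L) (hL'3 : 3 ≤ L') (z : ℂ) :
    ¬ (Polynomial.aeval z (GP a b L) = 0 ∧ Polynomial.aeval z (GP a' b' L') = 0) := by
  rintro ⟨h1, h2⟩
  rw [GP_aeval] at h1 h2
  obtain ⟨hw, hw1⟩ := root_of hL.pos h1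
  obtain ⟨hw', hw'1⟩ := root_of hL'.pos h2
  set ω : ℂ := (a : ℂ) * z + b with hω
  set ω' : ℂ := (a' : ℂ) * z + b' with hω'
  have hn := nsq hL.ne_zero hw
  have hn' := nsq hL'.ne_zero hw'
  set d : ℝ := (a : ℝ) * b' - a' * b with hd
  have har : (0 : ℝ) < a := by exact_mod_cast ha
  have har' : (0 : ℝ) < a' := by exact_mod_cast ha'
  have hd0 : d ≠ 0 := by
    intro h
    apply hab
    have : (a : ℝ) * b' = a' * b := by linarith
    exact_mod_cast this
  have hre : a * ω'.re - a' * ω.re = d := by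
    rw [hω, hω', hd]
    simp
    ring
  have him : a * ω'.im - a' * ω.im = 0 := by
    rw [hω, hω']
    simp
    ring
  have e1 : 2 * ω.re = (((a : ℚ) ^ 2 - a' ^ 2 - ((a : ℚ) * b' - a' * b) ^ 2) /
      (((a : ℚ) * b' - a' * b) * a') : ℚ) := by
    push_cast
    rw [← hd, eq_div_iff (mul_ne_zero hd0 har'.ne')]
    have h3 : a * ω'.re = d + a' * ω.re := by linarith
    have h4 : a * ω'.im = a' * ω.im := by linarith
    have h5 : (a : ℝ) ^ 2 * (ω'.re ^ 2 + ω'.im ^ 2) = (d + a' * ω.re) ^ 2 + (a' * ω.im) ^ 2 := by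
      rw [← h3, ← h4]; ring
    rw [hn'] at h5
    linear_combination -h5 - (a' : ℝ) ^ 2 * hn
  have e2 : 2 * ω'.re = (((a : ℚ) ^ 2 - a' ^ 2 + ((a : ℚ) * b' - a' * b) ^ 2) /
      (((a : ℚ) * b' - a' * b) * a) : ℚ) := by
    push_cast
    rw [← hd, eq_div_iff (mul_ne_zero hd0 har.ne')]
    have h3 : a' * ω.re = a * ω'.re - d := by linarith
    have h4 : a' * ω.im = a * ω'.im := by linarith
    have h5 : (a' : ℝ) ^ 2 * (ω.re ^ 2 + ω.im ^ 2) = (a * ω'.re - d) ^ 2 + (a * ω'.im) ^ 2 := by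
      rw [← h3, ← h4]; ring
    rw [hn] at h5
    linear_combination h5 + (a : ℝ) ^ 2 * hn'
  have f1 := re_half hL hL3 hw hw1 _ e1
  have f2 := re_half hL' hL'3 hw' hw'1 _ e2
  have g1 : ω.im ^ 2 = 3 / 4 := by
    have : ω.re = -1 / 2 := by linarith
    rw [this] at hn
    linarith
  have g2 : ω'.im ^ 2 = 3 / 4 := by
    have : ω'.re = -1 / 2 := by linarith
    rw [this] at hn'
    linarith
  have h6 : (a : ℝ) ^ 2 = (a' : ℝ) ^ 2 := by
    have h7 : (a * ω'.im) ^ 2 = (a' * ω.im) ^ 2 := by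
      have : a * ω'.im = a' * ω.im := by linarith
      rw [this]
    rw [mul_pow, mul_pow, g1, g2] at h7
    linarith
  have h8 : (a : ℝ) = a' := (sq_eq_sq₀ har.le har'.le).mp h6
  apply hd0
  rw [← hre, h8]
  have : ω.re = ω'.re := by linarith
  rw [this]
  ring

/-- a test gives an element of order `L` -/
lemma TL_ord {L q n : ℕ} (hL : L.Prime) (h : TL L q n) : orderOf (n : ZMod q) = L := by
  obtain ⟨d, h1, h2, h3⟩ := h
  rcases (Nat.dvd_prime hL).1 h2 with h4 | h4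
  · omega
  · rw [h3, h4]

lemma caseB (a b a' b' L : ℕ) (ha : 0 < a) (hL : L.Prime) (hL3 : 3 ≤ L) :
    ∃ c : ℕ, 0 < c ∧ ∀ q : ℕ, q.Prime → ¬ q ∣ c → ∀ n : ℕ,
      ¬ (q ∣ a * n + b ∧ TL L q (a' * n + b')) := by
  set d : ℤ := (a : ℤ) * b' - (a' : ℤ) * b with hd
  have hLodd : Odd L := hL.odd_of_ne_two (by omega)
  by_cases hda : d = a
  · refine ⟨a, ha, fun q hq hqc n ⟨h1, h2⟩ => ?_⟩
    have : Fact q.Prime := ⟨hq⟩
    have ho := TL_ord hL h2
    have ha0 : (a : ZMod q) ≠ 0 := by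
      intro h
      exact hqc ((ZMod.natCast_eq_zero_iff a q).1 h)
    have h3 : ((a * n + b : ℕ) : ZMod q) = 0 := (ZMod.natCast_eq_zero_iff _ q).2 h1
    have h4 : (a : ZMod q) * ((a' * n + b' : ℕ) : ZMod q) = a := by
      have h5 : ((d : ℤ) : ZMod q) = ((a : ℤ) : ZMod q) := by rw [hda]
      rw [hd] at h5
      push_cast at h3 h5 ⊢
      linear_combination (a' : ZMod q) * h3 + h5
    have h5 : ((a' * n + b' : ℕ) : ZMod q) = 1 := by
      apply mul_left_cancel₀ ha0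
      rw [h4, mul_one]
    rw [h5, orderOf_one] at ho
    omega
  · have hne : d ^ L - (a : ℤ) ^ L ≠ 0 := by
      intro h
      apply hda
      exact hLodd.strictMono_pow.injective (by
        show d ^ L = (a : ℤ) ^ L
        linarith)
    refine ⟨(d ^ L - (a : ℤ) ^ L).natAbs, Int.natAbs_pos.2 hne, fun q hq hqc n ⟨h1, h2⟩ => ?_⟩
    have : Fact q.Prime := ⟨hq⟩
    have ho := TL_ord hL h2
    apply hqc
    rw [← Int.natCast_dvd, ← ZMod.intCast_zmod_eq_zero_iff_dvd]
    have h3 : ((a * n + b : ℕ) : ZMod q) = 0 := (ZMod.natCast_eq_zero_iff _ q).2 h1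
    have h4 : (a : ZMod q) * ((a' * n + b' : ℕ) : ZMod q) = (d : ZMod q) := by
      rw [hd]
      push_cast at h3 ⊢
      linear_combination (a' : ZMod q) * h3
    have h5 : ((a' * n + b' : ℕ) : ZMod q) ^ L = 1 := by
      rw [← ho]
      exact pow_orderOf_eq_one _
    push_cast
    rw [← h4, mul_pow, h5, mul_one, sub_self]

lemma sum_zero {L q m : ℕ} (hq : q.Prime) (hL : L.Prime) (h : TL L q m) :
    (q : ℤ) ∣ ∑ j ∈ range L, ((m : ℕ) : ℤ) ^ j := by
  have : Fact q.Prime := ⟨hq⟩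
  have ho := TL_ord hL h
  rw [← ZMod.intCast_zmod_eq_zero_iff_dvd]
  push_cast
  have h1 : (m : ZMod q) ≠ 1 := by
    intro h1
    rw [h1, orderOf_one] at ho
    exact hL.one_lt.ne ho
  have h2 := mul_geom_sum (m : ZMod q) L
  have h3 : (m : ZMod q) ^ L = 1 := by
    rw [← ho]
    exact pow_orderOf_eq_one _
  rw [h3, sub_self] at h2
  rcases mul_eq_zero.1 h2 with h4 | h4
  · exact absurd (sub_eq_zero.1 h4) h1
  · exact h4

end PkgSP

open PkgSP

theorem pSP (hBEZ : S_BEZ) : S_SP := by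
  intro a b a' b' L L' ha ha' hab hL hL' hL3 hL'3
  obtain ⟨R, hR0, hR⟩ := hBEZ (GP a b L) (GP a' b' L')
    (no_common a b a' b' L L' ha ha' hab hL hL' hL3 hL'3)
  obtain ⟨c1, hc1, h1⟩ := caseB a b a' b' L' ha hL' hL'3
  obtain ⟨c2, hc2, h2⟩ := caseB a' b' a b L ha' hL hL3
  set d : ℤ := (a : ℤ) * b' - (a' : ℤ) * b with hd
  have hd0 : d ≠ 0 := by
    intro h
    apply hab
    have : (a : ℤ) * b' = (a' : ℤ) * b := by linarith
    exact_mod_cast this
  refine ⟨d.natAbs * c1 * c2 * R, ?_, ?_⟩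
  · have := Int.natAbs_pos.mpr hd0
    positivity
  · intro q hq hqc n ⟨k1, k2⟩
    have hqd : ¬ (q : ℤ) ∣ d := fun h => hqc (Dvd.dvd.mul_right (Dvd.dvd.mul_right
      (Dvd.dvd.mul_right (Int.natCast_dvd.mp h) _) _) _)
    have hq1 : ¬ q ∣ c1 := fun h => hqc (Dvd.dvd.mul_right (Dvd.dvd.mul_right
      (Dvd.dvd.mul_left h _) _) _)
    have hq2 : ¬ q ∣ c2 := fun h => hqc (Dvd.dvd.mul_right (Dvd.dvd.mul_left h _) _)
    have hqR : ¬ q ∣ R := fun h => hqc (Dvd.dvd.mul_left h _)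
    rcases k1 with k1 | k1
    · rcases k2 with k2 | k2
      · have k1' : (q : ℤ) ∣ (a : ℤ) * n + b := by exact_mod_cast k1
        have k2' : (q : ℤ) ∣ (a' : ℤ) * n + b' := by exact_mod_cast k2
        apply hqd
        have h3 : d = (a : ℤ) * ((a' : ℤ) * n + b') - (a' : ℤ) * ((a : ℤ) * n + b) := by
          rw [hd]; ring
        rw [h3]
        exact dvd_sub (Dvd.dvd.mul_left k2' _) (Dvd.dvd.mul_left k1' _)
      · exact h1 q hq hq1 n ⟨k1, k2⟩
    · rcases k2 with k2 | k2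
      · exact h2 q hq hq2 n ⟨k2, k1⟩
      · apply hR q hq hqR (n : ℤ)
        rw [GP_eval, GP_eval]
        exact ⟨sum_zero hq hL k1, sum_zero hq hL' k2⟩

end Pool.Agent.T2H45.OT
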