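import Pool.Agent.T2H45.OT.Stm
import Pool.Agent.W52.PQ.SV

/-!
# Package SVI : Brun's sieve for an arbitrary interval
-/

set_option autoImplicit false

noncomputable section

namespace Pool.Agent.T2H45.OT

open Finset
open scoped Classical

namespace PkgSVI

/-- the number of residues with a periodic property is invariant under shifts -/
theorem card_shift (f : ℕ → Prop) (m a : ℕ) (hf : ∀ n, f (n + m) ↔ f n) :
    ((range m).filter (fun n => f (n + a))).card = ((range m).filter f).card := by
  have hper : Function.Periodic f m := fun n => propext (hf n)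
  have h1 := Nat.filter_Ico_card_eq_of_periodic a m f hper
  have h0 := Nat.filter_Ico_card_eq_of_periodic 0 m f hper
  rw [Nat.zero_add, ← Finset.range_eq_Ico] at h0
  rw [h0, ← h1]
  apply Finset.card_bij (fun n _ => n + a)
  · intro n hn
    simp only [mem_filter, mem_range, mem_Ico] at hn ⊢
    exact ⟨⟨by omega, by omega⟩, hn.2⟩
  · intro n _ n' _ h
    exact Nat.add_right_cancel h
  · intro b hb
    simp only [mem_filter, mem_Ico] at hb
    refine ⟨b - a, ?_, by omega⟩
    simp only [mem_filter, mem_range]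
    have hba : b - a + a = b := by omega
    exact ⟨by omega, by rw [hba]; exact hb.2⟩

/-- the product of the factors `1 - [B]` -/
theorem prod_ite (S : Finset ℕ) (P : ℕ → Prop) :
    ∏ p ∈ S, (1 - (if P p then (1 : ℝ) else 0)) = if ∀ p ∈ S, ¬ P p then 1 else 0 := by
  by_cases h : ∀ p ∈ S, ¬ P p
  · rw [if_pos h]
    apply Finset.prod_eq_one
    intro p hp
    rw [if_neg (h p hp)]
    norm_num
  · rw [if_neg h]
    push Not at h
    obtain ⟨p, hp, hP⟩ := h
    apply Finset.prod_eq_zero hp
    rw [if_pos hP]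
    norm_num

end PkgSVI

open PkgSVI in
theorem pSVI : S_SVI := by
  intro κ hκ
  obtain ⟨C, hC, hsv⟩ := Pool.Agent.W52.PQ.sv κ hκ
  refine ⟨C, hC, ?_⟩
  intro z N s hz hN S B hS hper hden
  set h : ℕ → ℕ → ℝ := fun p n => if B p (n + (s + p ^ 2 - 1)) then 1 else 0 with hh
  have hmean : ∀ p ∈ S, (∑ n ∈ range (p ^ 2), h p n) =
      (((range (p ^ 2)).filter (fun n => B p n)).card : ℝ) := by
    intro p hp
    rw [← card_shift (fun n => B p n) (p ^ 2) (s + p ^ 2 - 1) (hper p hp)]
    simp only [hh]
    rw [Finset.sum_boole]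
  have key := hsv z N hz hN S h hS ?_ ?_ ?_
  · have hL : ∑ n ∈ Icc 1 N, ∏ p ∈ S, (1 - h p n) =
        (((Ico s (s + N)).filter (fun n => ∀ p ∈ S, ¬ B p n)).card : ℝ) := by
      have e1 : ∀ n ∈ Icc 1 N, ∏ p ∈ S, (1 - h p n) =
          if ∀ p ∈ S, ¬ B p (n + s - 1) then (1 : ℝ) else 0 := by
        intro n hn
        rw [mem_Icc] at hn
        rw [← prod_ite]
        apply Finset.prod_congr rfl
        intro p hp
        have e : n + (s + p ^ 2 - 1) = (n + s - 1) + p ^ 2 := by
          have : 0 < p ^ 2 := pow_pos (hS p hp).1.pos 2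
          omega
        simp only [hh]
        rw [e, if_congr (hper p hp (n + s - 1)) rfl rfl]
      rw [Finset.sum_congr rfl e1, Finset.sum_boole]
      congr 1
      apply Finset.card_bij (fun n _ => n + s - 1)
      · intro n hn
        simp only [mem_filter, mem_Icc, mem_Ico] at hn ⊢
        exact ⟨⟨by omega, by omega⟩, hn.2⟩
      · intro n hn n' hn' e
        simp only [mem_filter, mem_Icc] at hn hn'
        omega
      · intro b hb
        simp only [mem_filter, mem_Ico] at hb
        refine ⟨b + 1 - s, ?_, by omega⟩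
        simp only [mem_filter, mem_Icc]
        have hbs : b + 1 - s + s - 1 = b := by omega
        exact ⟨⟨by omega, by omega⟩, by rw [hbs]; exact hb.2⟩
    have hR : ∑ p ∈ S, (∑ n ∈ range (p ^ 2), h p n) / (p : ℝ) ^ 2 =
        ∑ p ∈ S, (((range (p ^ 2)).filter (fun n => B p n)).card : ℝ) / (p : ℝ) ^ 2 := by
      apply Finset.sum_congr rfl
      intro p hp
      rw [hmean p hp]
    rw [hL, hR] at key
    exact key
  · intro p _ n
    simp only [hh]
    by_cases hB : B p (n + (s + p ^ 2 - 1))
    · right; rw [if_pos hB]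
    · left; rw [if_neg hB]
  · intro p hp n
    simp only [hh]
    have e : n + p ^ 2 + (s + p ^ 2 - 1) = n + (s + p ^ 2 - 1) + p ^ 2 := by ring
    rw [e, if_congr (hper p hp (n + (s + p ^ 2 - 1))) rfl rfl]
  · intro p hp
    rw [hmean p hp]
    exact hden p hp

end Pool.Agent.T2H45.OT
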