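import Pool.Agent.T2H45.OT.FinS
import Pool.Agent.T2H45.OT.SVI
import Pool.Agent.T2H45.OT.AFF
import Pool.Agent.T2H45.OT.MUP
import Pool.Agent.T2H45.OT.CNT
import Pool.Agent.T2H45.OT.CMB
import Pool.Agent.T2H45.OT.FIN
import Pool.Agent.T2H45.OT.LOW
import Pool.Agent.T2H45.OT.GS
import Pool.Agent.T2H45.OT.BEZ
import Pool.Agent.T2H45.OT.SP
import Pool.Agent.T2H45.OT.BRN

/-!
# Project OT: assembly for the Singer parameters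
-/

set_option autoImplicit false

noncomputable section

namespace Pool.Agent.T2H45.OT

open Finset
open Pool.Agent.H771R2.SingerDS (HasSinger)

theorem tup : S_TUP := pTUP (pCMB (pCNT pSVI pAFF pMUP)) pFIN

theorem singer_all (K : ℕ) {r : ℕ} (a b : Fin r → ℕ) (ha : ∀ i, 0 < a i)
    (hab : ∀ i j, i ≠ j → a i * b j ≠ a j * b i) (ε : ℝ) (hε : 0 < ε) :
    ∃ C : ℝ, 0 < C ∧ ∀ x H : ℕ, 3 ≤ H → ({n : ℕ | x < n ∧ n ≤ x + H ∧ ∀ i,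
      2 ≤ a i * n + b i ∧ ∃ m : ℕ, Odd m ∧ 3 ≤ m ∧ m.minFac ≤ K ∧
        HasSinger (a i * n + b i) m}.ncard : ℝ) ≤ C * H * (Real.log H) ^ (ε - r) :=
  singer_K tup (pGS pLOW) (pSP pBEZ) K a b ha hab ε hε

theorem brun_all {r : ℕ} (hr : 2 ≤ r) (P : ℕ → Prop)
    (h : ∃ C : ℝ, 0 < C ∧ ∀ x H : ℕ, 3 ≤ H → ({n : ℕ | x < n ∧ n ≤ x + H ∧ P n}.ncard : ℝ) ≤
      C * H * (Real.log H) ^ ((1 / 2 : ℝ) - r)) :
    Summable ({n : ℕ | P n}.indicator fun n : ℕ => 1 / (n : ℝ)) :=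
  brun_of pBRN hr P h

end Pool.Agent.T2H45.OT
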