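import Pool.Agent.T2H45.OT.Tup

/-!
# Project OT: common parts of the two applications
-/

set_option autoImplicit false

noncomputable section

namespace Pool.Agent.T2H45.OT

open Finset
open Pool.Agent.H951R4.OD (ch PI Ex fl cl)
open scoped Classical

/-- separation for all pairs -/
theorem sep_of {r : ℕ} (a b : Fin r → ℕ) (T : Fin r → ℕ → ℕ → Prop) (ha : ∀ i, 0 < a i)
    (h : ∀ i j, i ≠ j → ∃ c : ℕ, 0 < c ∧ ∀ q : ℕ, q.Prime → ¬ q ∣ c → ∀ n : ℕ,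
      ¬ ((q ∣ a i * n + b i ∨ T i q (a i * n + b i)) ∧
        (q ∣ a j * n + b j ∨ T j q (a j * n + b j)))) (c0 : ℕ) (hc0 : 0 < c0) :
    ∃ c : ℕ, 0 < c ∧ c0 ∣ c ∧ Sep r a b T c := by
  have h' : ∀ i j, ∃ c : ℕ, 0 < c ∧ (i ≠ j → ∀ q : ℕ, q.Prime → ¬ q ∣ c → ∀ n : ℕ,
      ¬ ((q ∣ a i * n + b i ∨ T i q (a i * n + b i)) ∧
        (q ∣ a j * n + b j ∨ T j q (a j * n + b j)))) := by
    intro i j
    by_cases hij : i = j
    · exact ⟨1, one_pos, fun h => absurd hij h⟩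
    · obtain ⟨c, hc, H⟩ := h i j hij
      exact ⟨c, hc, fun _ => H⟩
  choose c hc H using h'
  refine ⟨c0 * (∏ i, a i) * ∏ i, ∏ j, c i j, ?_, ?_, ⟨ha, fun i => ?_, fun q hq hqc i j hij => ?_⟩⟩
  · exact Nat.mul_pos (Nat.mul_pos hc0 (Finset.prod_pos fun i _ => ha i))
      (Finset.prod_pos fun i _ => Finset.prod_pos fun j _ => hc i j)
  · exact Dvd.dvd.mul_right (Dvd.intro _ rfl) _
  · exact Dvd.dvd.mul_right (Dvd.dvd.mul_left (Finset.dvd_prod_of_mem _ (Finset.mem_univ i)) _) _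
  · refine H i j hij q hq fun h1 => hqc ?_
    refine Dvd.dvd.mul_left ?_ _
    refine (h1.trans (Finset.dvd_prod_of_mem (fun j => c i j) (Finset.mem_univ j))).trans ?_
    exact Finset.dvd_prod_of_mem (fun i => ∏ j, c i j) (Finset.mem_univ i)

/-- Brun's theorem -/
theorem brun_of (hBRN : S_BRN) {r : ℕ} (hr : 2 ≤ r) (P : ℕ → Prop)
    (h : ∃ C : ℝ, 0 < C ∧ ∀ x H : ℕ, 3 ≤ H → ({n : ℕ | x < n ∧ n ≤ x + H ∧ P n}.ncard : ℝ) ≤
      C * H * (Real.log H) ^ ((1 / 2 : ℝ) - r)) :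
    Summable ({n : ℕ | P n}.indicator fun n : ℕ => 1 / (n : ℝ)) := by
  obtain ⟨C, hC, H⟩ := h
  refine hBRN {n : ℕ | P n} C (1 / 2) hC (by norm_num) fun X hX => ?_
  have h1 := H 0 X hX
  have e : {n : ℕ | 0 < n ∧ n ≤ X ∧ n ∈ {n : ℕ | P n}} = {n : ℕ | 0 < n ∧ n ≤ 0 + X ∧ P n} := by
    ext n
    simp only [Set.mem_ofPred_eq, zero_add]
  rw [e]
  refine h1.trans ?_
  refine mul_le_mul_of_nonneg_left ?_ (by positivity)
  have hr2 : (2 : ℝ) ≤ r := by exact_mod_cast hr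
  exact Real.rpow_le_rpow_of_exponent_le (one_le_log hX) (by linarith)

end Pool.Agent.T2H45.OT
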