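import Pool.Agent.T2H45.OT.Com
import Pool.Agent.Y346.SG.App
import Pool.Agent.H951R4.OD.A1

/-!
# Project OT: tuples of orders of difference sets with Singer parameters
-/

set_option autoImplicit false

noncomputable section

namespace Pool.Agent.T2H45.OT

open Finset
open Pool.Agent.H951R4.OD (ch PI Ex fl cl)
open Pool.Agent.H771R2.SingerDS (HasSinger)
open scoped Classical

theorem passT_singer {L c n m : ℕ} (hLc : 6 * L ∣ c) (hm : Odd m) (hm3 : 3 ≤ m) (hLm : L ∣ m)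
    (hn : 2 ≤ n) (h : HasSinger n m) : PassT (TL L) c n := by
  intro p q hp hq hqc hT hch
  have h1 := (Pool.Agent.Y346.SG.pass0 (L := L) 0 hm hm3 hLm hn h
    (fun h0 => by norm_num at h0)).1
  have hq6 : ¬ q ∣ 6 * L := fun h => hqc (h.trans hLc)
  have hq2 : q ≠ 2 := by
    rintro rfl
    exact hq6 ⟨3 * L, by ring⟩
  exact h1 p q ((q - 1) / 2) ⟨hp.1, fun h => hp.2.1 (h.trans hLc), hp.2.2⟩ hq hq6 hT
    ((Pool.Agent.H951R4.OD.ch_eq_neg_one_iff p q hq hq2).1 hch)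

theorem singer_L (hTUP : S_TUP) (hGS : S_GS) (hSP : S_SP) {r : ℕ} (a b L : Fin r → ℕ)
    (ha : ∀ i, 0 < a i) (hab : ∀ i j, i ≠ j → a i * b j ≠ a j * b i)
    (hL : ∀ i, (L i).Prime ∧ 3 ≤ L i) (ε : ℝ) (hε : 0 < ε) :
    ∃ C : ℝ, 0 < C ∧ ∀ x H : ℕ, 3 ≤ H → ({n : ℕ | x < n ∧ n ≤ x + H ∧ ∀ i,
      2 ≤ a i * n + b i ∧ ∃ m : ℕ, Odd m ∧ 3 ≤ m ∧ L i ∣ m ∧
        HasSinger (a i * n + b i) m}.ncard : ℝ) ≤ C * H * (Real.log H) ^ (ε - r) := by
  obtain ⟨c, hc, hdvd, hsep⟩ := sep_of a b (fun i => TL (L i)) ha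
    (fun i j hij => hSP (a i) (b i) (a j) (b j) (L i) (L j) (ha i) (ha j) (hab i j hij)
      (hL i).1 (hL j).1 (hL i).2 (hL j).2) (∏ i, 6 * L i)
    (Finset.prod_pos fun i _ => Nat.mul_pos (by norm_num) (hL i).1.pos)
  have hLc : ∀ i, 6 * L i ∣ c := fun i =>
    (Finset.dvd_prod_of_mem (fun i => 6 * L i) (Finset.mem_univ i)).trans hdvd
  obtain ⟨C, hC, h⟩ := hTUP r a b L (fun i => TL (L i)) c
    (fun i => hGS (L i) (hL i).1 (hL i).2 c hc (hLc i)) hsep ε hε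
  refine ⟨C, hC, fun x H hH => le_trans ?_ (h x H hH)⟩
  exact_mod_cast Set.ncard_le_ncard (fun n hn => by
    obtain ⟨h1, h2, h3⟩ := hn
    refine ⟨h1, h2, fun i => ?_⟩
    obtain ⟨hn2, m, hm, hm3, hLm, hs⟩ := h3 i
    exact passT_singer (hLc i) hm hm3 hLm hn2 hs) (finite_interval _)

theorem singer_K (hTUP : S_TUP) (hGS : S_GS) (hSP : S_SP) (K : ℕ) {r : ℕ} (a b : Fin r → ℕ)
    (ha : ∀ i, 0 < a i) (hab : ∀ i j, i ≠ j → a i * b j ≠ a j * b i) (ε : ℝ) (hε : 0 < ε) :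
    ∃ C : ℝ, 0 < C ∧ ∀ x H : ℕ, 3 ≤ H → ({n : ℕ | x < n ∧ n ≤ x + H ∧ ∀ i,
      2 ≤ a i * n + b i ∧ ∃ m : ℕ, Odd m ∧ 3 ≤ m ∧ m.minFac ≤ K ∧
        HasSinger (a i * n + b i) m}.ncard : ℝ) ≤ C * H * (Real.log H) ^ (ε - r) := by
  set Ls : Finset (Fin r → ℕ) :=
    Fintype.piFinset (fun _ => (Finset.range (K + 1)).filter (fun L => L.Prime ∧ 3 ≤ L)) with hLs
  set A : (Fin r → ℕ) → ℕ → ℕ → Set ℕ := fun L x H => {n : ℕ | x < n ∧ n ≤ x + H ∧ ∀ i,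
      2 ≤ a i * n + b i ∧ ∃ m : ℕ, Odd m ∧ 3 ≤ m ∧ L i ∣ m ∧
        HasSinger (a i * n + b i) m} with hA
  have h : ∀ L : Fin r → ℕ, ∃ C : ℝ, 0 < C ∧ ((∀ i, (L i).Prime ∧ 3 ≤ L i) → ∀ x H : ℕ, 3 ≤ H →
      ((A L x H).ncard : ℝ) ≤ C * H * (Real.log H) ^ (ε - r)) := by
    intro L
    by_cases hL : ∀ i, (L i).Prime ∧ 3 ≤ L i
    · obtain ⟨C, hC, H⟩ := singer_L hTUP hGS hSP a b L ha hab hL ε hε
      exact ⟨C, hC, fun _ => H⟩
    · exact ⟨1, one_pos, fun h => absurd h hL⟩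
  choose C hC Hb using h
  have hs : 0 ≤ ∑ L ∈ Ls, C L := Finset.sum_nonneg fun L _ => (hC L).le
  refine ⟨∑ L ∈ Ls, C L + 1, by linarith, fun x H hH => ?_⟩
  have hAfin : ∀ L, (A L x H).Finite := fun L => finite_interval _
  have hlog : 0 ≤ (H : ℝ) * (Real.log H) ^ (ε - r) :=
    mul_nonneg (Nat.cast_nonneg _) (Real.rpow_nonneg (Real.log_natCast_nonneg H) _)
  have h1 : ({n : ℕ | x < n ∧ n ≤ x + H ∧ ∀ i,
      2 ≤ a i * n + b i ∧ ∃ m : ℕ, Odd m ∧ 3 ≤ m ∧ m.minFac ≤ K ∧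
        HasSinger (a i * n + b i) m}.ncard : ℝ) ≤ ∑ L ∈ Ls, ((A L x H).ncard : ℝ) := by
    have h2 : {n : ℕ | x < n ∧ n ≤ x + H ∧ ∀ i,
      2 ≤ a i * n + b i ∧ ∃ m : ℕ, Odd m ∧ 3 ≤ m ∧ m.minFac ≤ K ∧
        HasSinger (a i * n + b i) m} ⊆
        ((Ls.biUnion fun L => (hAfin L).toFinset : Finset ℕ) : Set ℕ) := by
      rintro n ⟨hn1, hn2, hn3⟩
      choose hn4 m hm hm3 hK hSi using hn3
      have hp : ∀ i, (m i).minFac.Prime := fun i =>
        Nat.minFac_prime (by have := hm3 i; omega)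
      have h3 : ∀ i, 3 ≤ (m i).minFac := by
        intro i
        have h2 := (hp i).two_le
        rcases Nat.lt_or_ge 2 (m i).minFac with h | h
        · exact h
        · have h4 : (m i).minFac = 2 := by omega
          have hd : (m i).minFac ∣ m i := Nat.minFac_dvd (m i)
          rw [h4] at hd
          rcases hm i with ⟨k, hk⟩
          omega
      rw [Finset.mem_coe, Finset.mem_biUnion]
      refine ⟨fun i => (m i).minFac, ?_, ?_⟩
      · rw [hLs, Fintype.mem_piFinset]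
        intro i
        rw [Finset.mem_filter, Finset.mem_range]
        exact ⟨by have := hK i; omega, hp i, h3 i⟩
      · rw [Set.Finite.mem_toFinset]
        exact ⟨hn1, hn2, fun i => ⟨hn4 i, m i, hm i, hm3 i, Nat.minFac_dvd (m i), hSi i⟩⟩
    have h3 := Set.ncard_le_ncard h2 (Finset.finite_toSet _)
    rw [Set.ncard_coe_finset] at h3
    have h4 := h3.trans Finset.card_biUnion_le
    have h5 : ∀ L, (hAfin L).toFinset.card = (A L x H).ncard := fun L =>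
      (Set.ncard_eq_toFinset_card _ (hAfin L)).symm
    simp only [h5] at h4
    exact_mod_cast h4
  refine h1.trans ?_
  calc ∑ L ∈ Ls, ((A L x H).ncard : ℝ) ≤ ∑ L ∈ Ls, C L * H * (Real.log H) ^ (ε - r) := by
        refine Finset.sum_le_sum fun L hL => ?_
        rw [hLs, Fintype.mem_piFinset] at hL
        exact Hb L (fun i => (Finset.mem_filter.1 (hL i)).2) x H hH
    _ = (∑ L ∈ Ls, C L) * (H * (Real.log H) ^ (ε - r)) := by
        rw [Finset.sum_mul]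
        exact Finset.sum_congr rfl fun L _ => by ring
    _ ≤ (∑ L ∈ Ls, C L + 1) * (H * (Real.log H) ^ (ε - r)) :=
        mul_le_mul_of_nonneg_right (by linarith) hlog
    _ = _ := by ring

end Pool.Agent.T2H45.OT
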