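import Pool.Agent.T2H45.OT.Stm
import Pool.Agent.H951R4.OD.C2
import Pool.Agent.H951R4.OD.M
import Pool.Agent.H951R4.OD.F1

/-! # Package GH : the tests for fixed lam are good -/

set_option autoImplicit false

noncomputable section

namespace Pool.Agent.T2H45.OT

open Finset
open Pool.Agent.H951R4.OD (ch PI Ex fl cl)
open scoped Classical

namespace PkgGH

lemma count_mul (p : ℕ → Prop) (q : ℕ) (hp : ∀ n, p (n + q) ↔ p n) (m : ℕ) :
    ((range (q * m)).filter p).card = m * ((range q).filter p).card := by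
  have hper : ∀ j n, p (q * j + n) ↔ p n := by
    intro j
    induction j with
    | zero => intro n; simp
    | succ j ih =>
      intro n
      have : q * (j + 1) + n = (q * j + n) + q := by ring
      rw [this, hp, ih]
  induction m with
  | zero => simp
  | succ m ih =>
    have h1 : range (q * (m + 1)) = range (q * m + q) := by rw [Nat.mul_succ]
    rw [h1, ← Nat.count_eq_card_filter_range, Nat.count_add, Nat.count_eq_card_filter_range, ih,
      Nat.count_eq_card_filter_range]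
    have h2 : (range q).filter (fun k => p (q * m + k)) = (range q).filter p :=
      Finset.filter_congr fun k _ => hper m k
    rw [h2]
    ring

lemma card_inst (s : Finset ℕ) (p : ℕ → Prop) (i1 i2 : DecidablePred p) :
    (@Finset.filter ℕ p i1 s).card = (@Finset.filter ℕ p i2 s).card := by
  rw [Subsingleton.elim i1 i2]

lemma ch_abs (D : ℤ) (n : ℕ) : -1 ≤ ch D n ∧ ch D n ≤ 1 := by
  unfold ch
  split_ifs
  · rcases jacobiSym.trichotomy D n with h | h | h <;> rw [h] <;> norm_num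
  · norm_num

end PkgGH

theorem pGH (hLOW : S_LOW) : S_GH := by
  intro lam hlam c hc hclc
  have hpol := Pool.Agent.H951R4.OD.pol_fl lam hlam
  have hper : ∀ q n : ℕ, (q : ℤ) ∣ fl lam (n + q) ↔ (q : ℤ) ∣ fl lam n := fun q n =>
    (dvd_iff_dvd_of_dvd_sub (hpol.per q n))
  have hcnt : ∀ q : ℕ, q.Prime → ¬ q ∣ c →
      ∀ inst : DecidablePred (fun n : ℕ => (q : ℤ) ∣ fl lam n),
      ((@Finset.filter ℕ (fun n => (q : ℤ) ∣ fl lam n) inst (range (q ^ 2))).card : ℝ) =
        q * (1 + ch (1 - 4 * (lam : ℤ)) q) := by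
    intro q hq hqc inst
    have h1 := PkgGH.count_mul (fun n => (q : ℤ) ∣ fl lam n) q (hper q) q
    have h2 := hpol.cnt q hq fun h => hqc (h.trans hclc)
    have h3 : (@Finset.filter ℕ (fun n => (q : ℤ) ∣ fl lam n) inst (range (q ^ 2))).card =
        q * (@Finset.filter ℕ (fun n => (q : ℤ) ∣ fl lam n) inst (range q)).card := by
      rw [sq, PkgGH.card_inst _ _ inst _, h1]
      rw [PkgGH.card_inst _ _ inst _]
    rw [h3, PkgGH.card_inst _ _ inst _, Nat.cast_mul, h2, one_mul]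
  set ρ : ℕ → ℝ := fun q => 1 + ch (1 - 4 * (lam : ℤ)) q with hρ
  have hρ0 : ∀ q, 0 ≤ ρ q ∧ ρ q ≤ ((2 : ℕ) : ℝ) := by
    intro q
    have := PkgGH.ch_abs (1 - 4 * (lam : ℤ)) q
    simp only [hρ]
    push_cast
    constructor <;> linarith
  have hBK : BKh c 2 ρ := by
    intro k
    obtain ⟨C₁, hC₁, h1⟩ := Pool.Agent.H951R4.OD.bad_lower hpol
    obtain ⟨Cm, hCm, hm⟩ := Pool.Agent.H951R4.OD.mert_int
    have hcR : (0 : ℝ) ≤ (c : ℝ) := Nat.cast_nonneg c
    refine ⟨C₁ + Cm + c, by linarith, ?_⟩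
    intro ps hcard hps y z hy hyz
    have hprod : (1 : ℝ) ≤ ∏ p ∈ ps, (p : ℝ) := by
      refine Finset.prod_induction (fun p : ℕ => (p : ℝ)) (fun x => (1 : ℝ) ≤ x)
        (fun a b ha hb => one_le_mul_of_one_le_of_one_le ha hb) le_rfl ?_
      intro p hp
      exact_mod_cast (hps p hp).one_lt.le
    have hprod2 : (1 : ℝ) ≤ (∏ p ∈ ps, (p : ℝ)) ^ 2 := one_le_pow₀ hprod
    have hy1 : C₁ * (∏ p ∈ ps, (p : ℝ)) ^ 2 ≤ y := by
      refine le_trans ?_ hy
      exact mul_le_mul_of_nonneg_right (by linarith) (by linarith)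
    have hyc : (c : ℝ) + 3 ≤ y := by
      refine le_trans ?_ hy
      have : (C₁ + Cm + c) * 1 ≤ (C₁ + Cm + c) * (∏ p ∈ ps, (p : ℝ)) ^ 2 :=
        mul_le_mul_of_nonneg_left hprod2 (by linarith)
      linarith
    have hycN : c + 3 ≤ y := by exact_mod_cast hyc
    have hb := h1 ps hps y z hy1 hyz
    rw [hcard] at hb
    have hmm := abs_le.mp (hm y z (by omega) hyz)
    have hly : 0 < Real.log y := Real.log_pos (by exact_mod_cast (by omega : 1 < y))
    have hlyz : Real.log y ≤ Real.log z :=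
      Real.log_le_log (by exact_mod_cast (by omega : 0 < y)) (by exact_mod_cast hyz)
    have hLL : 0 ≤ Real.log (Real.log z / Real.log y) :=
      Real.log_nonneg ((one_le_div hly).2 hlyz)
    have hsub : ∑ q ∈ Pool.Agent.H951R4.OD.Bad (cl lam) ps y z,
        (1 + 1 * ch (1 - 4 * (lam : ℤ)) q) / q ≤
        ∑ q ∈ (PI y z).filter (fun q => ¬ q ∣ c ∧ ∃ p ∈ ps, ch (p : ℤ) q = -1), ρ q / q := by
      have heq : ∑ q ∈ Pool.Agent.H951R4.OD.Bad (cl lam) ps y z,
        (1 + 1 * ch (1 - 4 * (lam : ℤ)) q) / q =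
          ∑ q ∈ Pool.Agent.H951R4.OD.Bad (cl lam) ps y z, ρ q / q := by
        refine Finset.sum_congr rfl fun q _ => ?_
        simp only [hρ, one_mul]
      rw [heq]
      refine Finset.sum_le_sum_of_subset_of_nonneg ?_ ?_
      · intro q hq
        simp only [Pool.Agent.H951R4.OD.Bad, Finset.mem_filter, PI, Finset.mem_Ioc] at hq ⊢
        obtain ⟨⟨⟨h4, h5⟩, h6⟩, h7, h8⟩ := hq
        refine ⟨⟨⟨h4, h5⟩, h6⟩, ?_, h8⟩
        intro h9
        have := Nat.le_of_dvd hc h9
        omega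
      · intro q _ _
        exact div_nonneg (hρ0 q).1 (Nat.cast_nonneg q)
    refine le_trans ?_ hsub
    have hk0 : (0 : ℝ) < (1 / 2 : ℝ) ^ k := by positivity
    have hk1 : (1 / 2 : ℝ) ^ k ≤ 1 := pow_le_one₀ (by norm_num) (by norm_num)
    have h2k : (((2 : ℕ) : ℝ)) / 2 ^ k = 2 * (1 / 2 : ℝ) ^ k := by
      rw [one_div, inv_pow]
      push_cast
      rw [div_eq_mul_inv]
    rw [h2k]
    have h10 : (1 - (1 / 2 : ℝ) ^ k) * (Real.log (Real.log z / Real.log y) - Cm) ≤
        (1 - (1 / 2 : ℝ) ^ k) * ∑ q ∈ PI y z, (1 : ℝ) / q :=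
      mul_le_mul_of_nonneg_left (by linarith [hmm.1]) (by linarith)
    have h11 : 0 ≤ (1 / 2 : ℝ) ^ k * Real.log (Real.log z / Real.log y) :=
      mul_nonneg hk0.le hLL
    have h12 : 0 ≤ (1 / 2 : ℝ) ^ k * Cm := mul_nonneg hk0.le hCm
    nlinarith [h10, h11, h12, hb]
  refine ⟨hc, by norm_num, ?_, ?_, hLOW _ c 2 ρ hc (by norm_num) hρ0 ?_ hBK⟩
  · intro q n hq
    have h1 : ∀ j, (q : ℤ) ∣ fl lam (n + q * j) ↔ (q : ℤ) ∣ fl lam n := by
      intro j
      induction j with
      | zero => simp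
      | succ j ih =>
        have : n + q * (j + 1) = (n + q * j) + q := by ring
        rw [this, hper, ih]
    rw [sq]
    exact h1 q
  · intro q hq hqc
    have h1 := hcnt q hq hqc
    have h2 : ∀ inst : DecidablePred (fun n : ℕ => (q : ℤ) ∣ fl lam n),
        (@Finset.filter ℕ (fun n => (q : ℤ) ∣ fl lam n) inst (range (q ^ 2))).card ≤ 2 * q := by
      intro inst
      have h5 : ((@Finset.filter ℕ (fun n => (q : ℤ) ∣ fl lam n) inst (range (q ^ 2))).card : ℝ) ≤
          ((2 * q : ℕ) : ℝ) := by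
        rw [h1 inst]
        push_cast
        have h3 := (hρ0 q).2
        simp only [hρ] at h3
        push_cast at h3
        have h4 : (0 : ℝ) ≤ q := Nat.cast_nonneg q
        nlinarith
      exact_mod_cast h5
    exact h2 _
  · intro q hq hqc
    have h1 := hcnt q hq hqc
    have h2 : ∀ inst : DecidablePred (fun n : ℕ => (q : ℤ) ∣ fl lam n),
        |((@Finset.filter ℕ (fun n => (q : ℤ) ∣ fl lam n) inst (range (q ^ 2))).card : ℝ) -
          q * ρ q| ≤ ((2 : ℕ) : ℝ) := by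
      intro inst
      rw [h1 inst]
      simp [hρ]
    exact h2 _

end Pool.Agent.T2H45.OT
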