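import Pool.Agent.T2H45.OT.Stm

set_option autoImplicit false

noncomputable section

namespace Pool.Agent.T2H45.OT

open Finset
open Pool.Agent.H951R4.OD (ch PI Ex fl cl)

namespace PkgHP

open Polynomial in
/-- the polynomial `f (a X + b)` -/
def FP (lam a b : ℕ) : Polynomial ℤ :=
  (C (a : ℤ) * X + C (b : ℤ)) ^ 2 + C (2 * (lam : ℤ) - 1) * (C (a : ℤ) * X + C (b : ℤ)) +
    C ((lam : ℤ) ^ 2)

lemma FP_eval (lam a b n : ℕ) : (FP lam a b).eval (n : ℤ) = fl lam (a * n + b) := by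
  unfold FP fl
  simp only [Polynomial.eval_add, Polynomial.eval_pow, Polynomial.eval_mul, Polynomial.eval_C,
    Polynomial.eval_X]
  push_cast
  ring

lemma FP_aeval (lam a b : ℕ) (z : ℂ) : Polynomial.aeval z (FP lam a b) =
    ((a : ℂ) * z + b) ^ 2 + (2 * (lam : ℂ) - 1) * ((a : ℂ) * z + b) + (lam : ℂ) ^ 2 := by
  unfold FP
  rw [Polynomial.aeval_def]
  simp only [Polynomial.eval₂_add, Polynomial.eval₂_pow, Polynomial.eval₂_mul,
    Polynomial.eval₂_C, Polynomial.eval₂_X]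
  simp

/-- real and imaginary part of a zero -/
lemma zero_re_im (lam : ℕ) (hlam : 1 ≤ lam) (w : ℂ)
    (h : w ^ 2 + (2 * (lam : ℂ) - 1) * w + (lam : ℂ) ^ 2 = 0) :
    2 * w.re + (2 * (lam : ℝ) - 1) = 0 ∧ 4 * w.im ^ 2 = 4 * (lam : ℝ) - 1 := by
  have hre := congrArg Complex.re h
  have him := congrArg Complex.im h
  have hl : (1 : ℝ) ≤ lam := by exact_mod_cast hlam
  simp [sq, Complex.mul_re, Complex.mul_im] at hre him
  have hv : w.im ≠ 0 := by
    intro hv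
    rw [hv] at hre
    nlinarith [sq_nonneg (2 * w.re + (2 * (lam : ℝ) - 1))]
  have h1 : 2 * w.re + (2 * (lam : ℝ) - 1) = 0 := by
    apply mul_right_cancel₀ hv
    linarith
  refine ⟨h1, ?_⟩
  have h2 : w.re = (1 - 2 * (lam : ℝ)) / 2 := by linarith
  rw [h2] at hre
  nlinarith

lemma no_common (lam a b a' b' : ℕ) (hlam : 1 ≤ lam) (_ha : 0 < a) (_ha' : 0 < a')
    (hab : a * b' ≠ a' * b) (z : ℂ) :
    ¬ (Polynomial.aeval z (FP lam a b) = 0 ∧ Polynomial.aeval z (FP lam a' b') = 0) := by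
  rintro ⟨h1, h2⟩
  rw [FP_aeval] at h1 h2
  obtain ⟨r1, i1⟩ := zero_re_im lam hlam _ h1
  obtain ⟨r2, i2⟩ := zero_re_im lam hlam _ h2
  simp at r1 i1 r2 i2
  have hl : (1 : ℝ) ≤ lam := by exact_mod_cast hlam
  have hz : z.im ≠ 0 := by
    intro hz
    rw [hz] at i1
    simp at i1
    linarith
  have h3 : (a : ℝ) ^ 2 = (a' : ℝ) ^ 2 := by
    have h4 : 0 < z.im ^ 2 := by positivity
    apply mul_right_cancel₀ h4.ne'
    nlinarith
  have h5 : (a : ℝ) = a' := by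
    have h6 := (sq_eq_sq₀ (Nat.cast_nonneg a) (Nat.cast_nonneg a')).mp h3
    exact h6
  have h7 : a = a' := by exact_mod_cast h5
  subst h7
  have h8 : (b : ℝ) = b' := by linarith
  have h9 : b = b' := by exact_mod_cast h8
  subst h9
  exact hab rfl

lemma N_pos (lam : ℕ) (hlam : 1 ≤ lam) (a : ℕ) (ha : 0 < a) (d : ℤ) :
    0 < d ^ 2 + (2 * (lam : ℤ) - 1) * d * a + (lam : ℤ) ^ 2 * (a : ℤ) ^ 2 := by
  have h1 : (1 : ℤ) ≤ lam := by exact_mod_cast hlam
  have h2 : (0 : ℤ) < a := by exact_mod_cast ha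
  have h3 : 4 * (d ^ 2 + (2 * (lam : ℤ) - 1) * d * a + (lam : ℤ) ^ 2 * (a : ℤ) ^ 2) =
      (2 * d + (2 * (lam : ℤ) - 1) * a) ^ 2 + (4 * lam - 1) * (a : ℤ) ^ 2 := by ring
  have h4 : 0 < (4 * (lam : ℤ) - 1) * (a : ℤ) ^ 2 := by
    apply mul_pos (by linarith) (by positivity)
  have h5 := sq_nonneg (2 * d + (2 * (lam : ℤ) - 1) * a)
  linarith

end PkgHP

open PkgHP

theorem pHP (hBEZ : S_BEZ) : S_HP := by
  intro lam hlam a b a' b' ha ha' hab
  obtain ⟨R, hR0, hR⟩ := hBEZ (FP lam a b) (FP lam a' b')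
    (no_common lam a b a' b' hlam ha ha' hab)
  set d : ℤ := (a : ℤ) * b' - (a' : ℤ) * b with hd
  have hd0 : d ≠ 0 := by
    intro h
    apply hab
    have : (a : ℤ) * b' = (a' : ℤ) * b := by linarith
    exact_mod_cast this
  have hN1 := N_pos lam hlam a ha d
  have hN2 := N_pos lam hlam a' ha' (-d)
  set N1 : ℤ := d ^ 2 + (2 * (lam : ℤ) - 1) * d * a + (lam : ℤ) ^ 2 * (a : ℤ) ^ 2 with hN1d
  set N2 : ℤ := (-d) ^ 2 + (2 * (lam : ℤ) - 1) * (-d) * a' + (lam : ℤ) ^ 2 * (a' : ℤ) ^ 2 with hN2d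
  refine ⟨d.natAbs * N1.natAbs * N2.natAbs * R, ?_, ?_⟩
  · have h1 := Int.natAbs_pos.mpr hd0
    have h2 := Int.natAbs_pos.mpr hN1.ne'
    have h3 := Int.natAbs_pos.mpr hN2.ne'
    positivity
  · intro q hq hqc n ⟨h1, h2⟩
    have hqd : ¬ (q : ℤ) ∣ d := by
      intro h
      exact hqc (Dvd.dvd.mul_right (Dvd.dvd.mul_right (Dvd.dvd.mul_right
        (Int.natCast_dvd.mp h) _) _) _)
    have hq1 : ¬ (q : ℤ) ∣ N1 := by
      intro h
      exact hqc (Dvd.dvd.mul_right (Dvd.dvd.mul_right (Dvd.dvd.mul_left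
        (Int.natCast_dvd.mp h) _) _) _)
    have hq2 : ¬ (q : ℤ) ∣ N2 := by
      intro h
      exact hqc (Dvd.dvd.mul_right (Dvd.dvd.mul_left
        (Int.natCast_dvd.mp h) _) _)
    have hqR : ¬ q ∣ R := by
      intro h
      exact hqc (Dvd.dvd.mul_left h _)
    rcases h1 with h1 | h1
    · have h1' : (q : ℤ) ∣ (a : ℤ) * n + b := by exact_mod_cast h1
      rcases h2 with h2 | h2
      · have h2' : (q : ℤ) ∣ (a' : ℤ) * n + b' := by exact_mod_cast h2
        apply hqd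
        have h3 : d = (a : ℤ) * ((a' : ℤ) * n + b') - (a' : ℤ) * ((a : ℤ) * n + b) := by
          rw [hd]; ring
        rw [h3]
        exact dvd_sub (Dvd.dvd.mul_left h2' _) (Dvd.dvd.mul_left h1' _)
      · apply hq1
        unfold fl at h2
        push_cast at h2
        -- `a ^ 2 f (x) ≡ N1`
        have h3 : N1 = (a : ℤ) ^ 2 * (((a' : ℤ) * n + b') ^ 2 +
            (2 * (lam : ℤ) - 1) * ((a' : ℤ) * n + b') + (lam : ℤ) ^ 2) -
            ((a : ℤ) * n + b) * ((a' : ℤ) * ((a : ℤ) * ((a' : ℤ) * n + b') + d) +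
              (2 * (lam : ℤ) - 1) * a' * a) := by
          rw [hN1d, hd]; ring
        rw [h3]
        exact dvd_sub (Dvd.dvd.mul_left h2 _) (Dvd.dvd.mul_right h1' _)
    · rcases h2 with h2 | h2
      · have h2' : (q : ℤ) ∣ (a' : ℤ) * n + b' := by exact_mod_cast h2
        apply hq2
        unfold fl at h1
        push_cast at h1
        have h3 : N2 = (a' : ℤ) ^ 2 * (((a : ℤ) * n + b) ^ 2 +
            (2 * (lam : ℤ) - 1) * ((a : ℤ) * n + b) + (lam : ℤ) ^ 2) -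
            ((a' : ℤ) * n + b') * ((a : ℤ) * ((a' : ℤ) * ((a : ℤ) * n + b) + (-d)) +
              (2 * (lam : ℤ) - 1) * a * a') := by
          rw [hN2d, hd]; ring
        rw [h3]
        exact dvd_sub (Dvd.dvd.mul_left h1 _) (Dvd.dvd.mul_right h2' _)
      · apply hR q hq hqR (n : ℤ)
        rw [FP_eval, FP_eval]
        exact ⟨h1, h2⟩

end Pool.Agent.T2H45.OT
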