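import Pool.Agent.H951R4.OD.Defs

/-!
# Project OT : tuples of orders (MP_79499b_co, MP_c38931_co; both hard, weight 10)

Aim. For pairwise non-proportional linear forms `a_i n + b_i` (`i < r`) every interval `(x, x + H]`
contains at most `C H (log H) ^ (ε - r)` integers `n` such that all `a_i n + b_i` are orders of
difference sets with Singer parameters (resp. of symmetric designs with fixed `lam` and a group with
few orbits). `r = 1` is a Brun-Titchmarsh theorem, `r = 2` gives Brun's theorem for twin orders. The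
starting files have `r = 1`, `a = 1`, `b = 0`, intervals `(0, X]`.

Package `Y` proves `theorem pY (h.. : S_..) : S_Y` in the file `Pool/Agent/T2H45/OT/Y.lean` (which
imports this file; lemmas in the namespace `Pool.Agent.T2H45.OT.PkgY`); the statements which a
package may use are hypotheses (see the table), so all packages can be done at the same time. Add
lemmas freely, do not change this file. No double quotes in the files.
-/

set_option autoImplicit false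

noncomputable section

namespace Pool.Agent.T2H45.OT

open Finset
open Pool.Agent.H951R4.OD (ch PI Ex fl cl)
open scoped Classical

/-! ## Definitions

`T q n` is a test of the integer `n` at the prime `q`. `ps` is a set of at most `k` exact prime
divisors of `n`: all exact prime divisors up to `z` (outside `c`) if `ps.card < k`, the `k` smallest
ones if `ps.card = k`. Then `n` must avoid `Bc T k Cb ps q` for the primes `q ≤ z`, `q ∉ ps`. -/

/-- the test of the Singer parameters; definitionally equal to `(Pool.Agent.Y346.SG.DS.datG L 0).T` -/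
def TL (L : ℕ) (q n : ℕ) : Prop := ∃ d : ℕ, 1 < d ∧ d ∣ L ∧ orderOf (n : ZMod q) = d

/-- the excluded residues at the prime `q` -/
def Bc (T : ℕ → ℕ → Prop) (k Cb : ℕ) (ps : Finset ℕ) (q n : ℕ) : Prop :=
  ((ps.card < k ∨ q ≤ ps.sup id) ∧ q ∣ n ∧ ¬ q ^ 2 ∣ n) ∨
  (ps.card = k ∧ Cb * (∏ p ∈ ps, p) ^ 2 < q ∧ (∃ p ∈ ps, ch (p : ℤ) q = -1) ∧ T q n)

/-- their density -/
def mu (T : ℕ → ℕ → Prop) (k Cb : ℕ) (ps : Finset ℕ) (q : ℕ) : ℝ :=
  (((range (q ^ 2)).filter (fun n => Bc T k Cb ps q n)).card : ℝ) / (q : ℝ) ^ 2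

/-- the lower bound for the sum of the densities; `U` is a further finite set of excluded primes -/
def Low (T : ℕ → ℕ → Prop) (c κ : ℕ) : Prop :=
  ∀ k m : ℕ, 1 ≤ k → κ < 2 ^ k → ∃ (Cb : ℕ) (C : ℝ), ∀ z : ℕ, 3 ≤ z → ∀ ps U : Finset ℕ,
    ps ⊆ U → U.card ≤ m → ps.card ≤ k → (∀ p ∈ ps, p.Prime ∧ p ≤ z) →
    (1 - (κ : ℝ) / 2 ^ k) * Real.log (Real.log z) - C ≤
      ∑ q ∈ (PI 0 z).filter (fun q => ¬ q ∣ c ∧ q ∉ U), mu T k Cb ps q

/-- good tests; the primes dividing `c` are not used -/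
structure Good (T : ℕ → ℕ → Prop) (c κ : ℕ) : Prop where
  c_pos : 0 < c
  κ_pos : 1 ≤ κ
  per : ∀ q n : ℕ, q.Prime → (T q (n + q ^ 2) ↔ T q n)
  cnt : ∀ q : ℕ, q.Prime → ¬ q ∣ c → ((range (q ^ 2)).filter (fun n => T q n)).card ≤ κ * q
  low : Low T c κ

/-- `n` passes all the tests -/
def PassT (T : ℕ → ℕ → Prop) (c n : ℕ) : Prop :=
  ∀ p q : ℕ, Ex c n p → q.Prime → ¬ q ∣ c → T q n → ch (p : ℤ) q ≠ -1

/-- the tests at the different linear forms are incompatible -/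
structure Sep (r : ℕ) (a b : Fin r → ℕ) (T : Fin r → ℕ → ℕ → Prop) (c : ℕ) : Prop where
  a_pos : ∀ i, 0 < a i
  a_dvd : ∀ i, a i ∣ c
  sep : ∀ q : ℕ, q.Prime → ¬ q ∣ c → ∀ i j, i ≠ j → ∀ n : ℕ,
    ¬ ((q ∣ a i * n + b i ∨ T i q (a i * n + b i)) ∧ (q ∣ a j * n + b j ∨ T j q (a j * n + b j)))

/-! ## Package SVI (25 min; uses nothing; from `Pool.Agent.W52.PQ.sv : Pool.Agent.W114.PQ.S_SV`)

Brun's sieve for an arbitrary interval. Apply `sv` with `h p n = if B p (n + (s + p ^ 2 - 1)) then 1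
else 0` (`n ∈ Icc 1 N` corresponds to `n + s - 1 ∈ Ico s (s + N)`; the shift by `p ^ 2` does not
matter by periodicity, it avoids the subtraction at `n = s = 0`). The product `∏ (1 - h p n)` is `1` if
no `B p` holds and `0` otherwise. The number of `n ∈ range (p ^ 2)` with a `p ^ 2`-periodic property is
invariant under shifts. -/

def S_SVI : Prop := ∀ κ : ℝ, 1 ≤ κ → ∃ C : ℝ, 1 ≤ C ∧ ∀ z N s : ℕ, 3 ≤ z →
  C * Real.log z * (1 + Real.log (Real.log z)) ≤ Real.log N →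
  ∀ (S : Finset ℕ) (B : ℕ → ℕ → Prop), (∀ p ∈ S, p.Prime ∧ p ≤ z) →
  (∀ p ∈ S, ∀ n, B p (n + p ^ 2) ↔ B p n) →
  (∀ p ∈ S, (((range (p ^ 2)).filter (fun n => B p n)).card : ℝ) / (p : ℝ) ^ 2 ≤ κ / p) →
  (((Ico s (s + N)).filter (fun n => ∀ p ∈ S, ¬ B p n)).card : ℝ) ≤
    C * N * Real.exp (-∑ p ∈ S,
      (((range (p ^ 2)).filter (fun n => B p n)).card : ℝ) / (p : ℝ) ^ 2)

/-! ## Package AFF (25 min; uses nothing)

`t ↦ A t + B` permutes the residues modulo `q ^ 2` (for instance the map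
`t ↦ (A t + B) % q ^ 2` from one filtered range to the other is injective, hence bijective on
`range (q ^ 2)`; or use `ZMod (q ^ 2)`). -/

def S_AFF : Prop := ∀ (q A B : ℕ) (f : ℕ → Prop), 0 < q → A.Coprime q →
  (∀ n, f (n + q ^ 2) ↔ f n) →
  ((range (q ^ 2)).filter (fun t => f (A * t + B))).card = ((range (q ^ 2)).filter f).card

/-! ## Package MUP (20 min; uses nothing)

There are at most `q` multiples of `q` in `range (q ^ 2)` (the exact number of `n` with `q ∣ n`, `¬ q ^ 2 ∣ n`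
is in `Pool.Agent.H951R4.OD.D2b_cnt1`), and at most `κ q` elements with `T q n`. -/

def S_MUP : Prop := ∀ (T : ℕ → ℕ → Prop) (c κ : ℕ), Good T c κ →
  ∀ (k Cb : ℕ) (ps : Finset ℕ) (q : ℕ), q.Prime → ¬ q ∣ c →
    mu T k Cb ps q ≤ (κ + 1 : ℝ) / q ∧ ∀ n, Bc T k Cb ps q (n + q ^ 2) ↔ Bc T k Cb ps q n

/-! ## Package CNT (75 min; uses S_SVI S_AFF S_MUP)

The count for given sets `ps i`. Let the set contain `n₀` (otherwise nothing to prove). The sets `ps i`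
are pairwise disjoint: `p ∈ ps i ∩ ps j` divides `a i * n₀ + b i` and `a j * n₀ + b j`, `¬ p ∣ c` (`Ex`),
contradiction to `Sep.sep`. Let `U` be the union of the `ps i`, `Pr = ∏_{p ∈ U} p = ∏_i ∏_{p ∈ ps i} p`. All
`n` of the set are `≡ n₀` modulo every `p ∈ U` (`p ∣ a i * (n - n₀)`, `a i ∣ c`), hence modulo `Pr`. So
`n = n₁ + Pr * t` with `n₁ = n₀ % Pr`, `t = n / Pr ∈ Ico s (s + N)`, `s = (x + 1) / Pr`, `N = H / Pr + 2 ≤ 3 H / Pr`
(`Pr ≤ z ^ (r k) ≤ H`). Take `Cb i`, `C i` from `Good.low` with `m = r k`. Apply S_SVI with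
`S = (PI 0 z).filter (¬ q ∣ c ∧ q ∉ U)` and
`B q t = ∃ i, Bc (T i) k (Cb i) (ps i) q (a i * (n₁ + Pr * t) + b i)`. No `t = n / Pr` satisfies `B q` for a `q ∈ S`:
in the first case of `Bc` the prime `q` is an exact prime divisor of `a i * n + b i`, so in `ps i`; in the
second case use `PassT`. For `q ∈ S` the conditions for different `i` are incompatible (`Sep.sep`), so by
S_AFF (`A = a i * Pr` is coprime to `q`) the density of `B q` is `∑ i, mu (T i) k (Cb i) (ps i) q`; it is at most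
`∑ (κ i + 1) / q` by S_MUP, and the sum over `q ∈ S` is at least `∑ i, ((1 - κ i / 2 ^ k) log log z - C i)`
by `Good.low`. Finally `exp (- δ log log z) = (log z) ^ (-δ)`. (A similar computation for one form:
`Pool.Agent.Y346.SG.OC.ca2`.) -/

def S_CNT : Prop := ∀ (r : ℕ) (a b κ : Fin r → ℕ) (T : Fin r → ℕ → ℕ → Prop) (c : ℕ),
  (∀ i, Good (T i) c (κ i)) → Sep r a b T c → ∀ k : ℕ, 1 ≤ k → (∀ i, κ i < 2 ^ k) →
  ∃ C : ℝ, 1 ≤ C ∧ ∀ z x H : ℕ, 3 ≤ z →
    C * Real.log z * (1 + Real.log (Real.log z)) ≤ Real.log H →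
    ∀ ps : Fin r → Finset ℕ, (∀ i, (ps i).card ≤ k ∧ ∀ p ∈ ps i, p.Prime ∧ p ≤ z) →
      ({n : ℕ | x < n ∧ n ≤ x + H ∧ ∀ i, PassT (T i) c (a i * n + b i) ∧
        (∀ p ∈ ps i, Ex c (a i * n + b i) p) ∧
        ∀ p : ℕ, Ex c (a i * n + b i) p → ((ps i).card < k ∧ p ≤ z ∨ p ≤ (ps i).sup id) →
          p ∈ ps i}.ncard : ℝ) ≤
      C * (H / ∏ i, ∏ p ∈ ps i, (p : ℝ)) *
        (Real.log z) ^ (-∑ i, (1 - (κ i : ℝ) / 2 ^ k))

/-! ## Package CMB (50 min; uses S_CNT)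

Every `n` of the set lies in one of the sets of S_CNT: let `X` be the set of the exact prime divisors
`p ≤ z`, `¬ p ∣ c`, of `a i * n + b i`; `ps i = X` if `X.card < k`, otherwise `ps i` = the `k` smallest elements
of `X` (`Pool.Agent.H951R4.OD.d3_smallest`; compare `Pool.Agent.Y346.SG.OC.cover`). Sum over all families
`ps` with values in the sets of at most `k` primes up to `z` (`Fintype.piFinset`, `Finset.prod_univ_sum`); by
`Pool.Agent.H951R4.OD.sum_inv_prod` the sum of `1 / ∏ p` over these sets is at most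
`D (1 + log log z) ^ k`. (Compare `Pool.Agent.Y346.SG.OC.combine`.) -/

def S_CMB : Prop := ∀ (r : ℕ) (a b κ : Fin r → ℕ) (T : Fin r → ℕ → ℕ → Prop) (c : ℕ),
  (∀ i, Good (T i) c (κ i)) → Sep r a b T c → ∀ k : ℕ, 1 ≤ k → (∀ i, κ i < 2 ^ k) →
  ∃ C : ℝ, 1 ≤ C ∧ ∀ z x H : ℕ, 3 ≤ z →
    C * Real.log z * (1 + Real.log (Real.log z)) ≤ Real.log H →
      ({n : ℕ | x < n ∧ n ≤ x + H ∧ ∀ i, PassT (T i) c (a i * n + b i)}.ncard : ℝ) ≤
      C * H * (1 + Real.log (Real.log z)) ^ (k * r) *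
        (Real.log z) ^ (-∑ i, (1 - (κ i : ℝ) / 2 ^ k))

/-! ## Package FIN (40 min; real analysis; uses nothing; port of `Pool.Agent.Y346.SG.OC.oc`)

`z = ⌊exp (L / (C (1 + log L)))⌋`, `L = log H`, if `L` is large; then
`(log z) ^ (-δ) ≤ (2 C (1 + log L)) ^ δ L ^ (-δ)` and `1 + log log z ≤ 1 + log L`, and
`(1 + log L) ^ (m + δ) ≤ C' L ^ ε`. If `L` is bounded use `F x H ≤ H`. -/

def S_FIN : Prop := ∀ (F : ℕ → ℕ → ℕ) (m : ℕ) (δ ε : ℝ), 0 < ε → 0 ≤ δ → (∀ x H, F x H ≤ H) →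
  (∃ C : ℝ, 1 ≤ C ∧ ∀ z x H : ℕ, 3 ≤ z →
    C * Real.log z * (1 + Real.log (Real.log z)) ≤ Real.log H →
      (F x H : ℝ) ≤ C * H * (1 + Real.log (Real.log z)) ^ m * (Real.log z) ^ (-δ)) →
  ∃ C : ℝ, 0 < C ∧ ∀ x H : ℕ, 3 ≤ H → (F x H : ℝ) ≤ C * H * (Real.log H) ^ (ε - δ)

/-! ## Package LOW (60 min; uses nothing; part of `Pool.Agent.Y346.SG.OC.ca2`)

If `ps.card < k` (all primes are sieved): `mu ≥ 1 / q - 1 / q ^ 2` (`Pool.Agent.H951R4.OD.D2b_cnt1`), use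
`Pool.Agent.H951R4.OD.D2b_small` (with `P = z`, `ps` replaced by `U`: `U.card ≤ m`, take the sum of its
constants over all cardinalities up to `m`) and `(1 - κ / 2 ^ k) log log z ≤ log log z`. If `ps.card = k`: let
`P = ps.sup id`, `y = Cb (∏ ps) ^ 2` with `Cb = ⌈constant of BKh⌉₊`; the primes `q ≤ P` give at least
`log log (max P 3) - C` (`D2b_small` with `U`), the primes in `(y, z]` give at least `ρ q / q - κ / q ^ 2` each if
some `ch p q = -1`, and BKh applies if `y ≤ z`; those in `U` are at most `m` and cost `κ / q ≤ κ` each.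
`log y ≤ K log (max P 3)` as in `ca2`, so
`δ log log (max P 3) + δ log (log z / log y) ≥ δ log log z - C`; if `z < y` the first part suffices. Here
`δ = 1 - κ / 2 ^ k ∈ (0, 1)`. See the part `hlow` of the proof of `ca2`. -/

/-- the sum over the primes modulo which some element of `ps` is a nonresidue -/
def BKh (c κ : ℕ) (ρ : ℕ → ℝ) : Prop := ∀ k : ℕ, ∃ C : ℝ, 3 ≤ C ∧ ∀ ps : Finset ℕ, ps.card = k →
  (∀ p ∈ ps, p.Prime) → ∀ y z : ℕ, C * (∏ p ∈ ps, (p : ℝ)) ^ 2 ≤ y → y ≤ z →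
    (1 - (κ : ℝ) / 2 ^ k) * Real.log (Real.log z / Real.log y) - C ≤
      ∑ q ∈ (PI y z).filter (fun q => ¬ q ∣ c ∧ ∃ p ∈ ps, ch (p : ℤ) q = -1), ρ q / q

def S_LOW : Prop := ∀ (T : ℕ → ℕ → Prop) (c κ : ℕ) (ρ : ℕ → ℝ), 0 < c → 1 ≤ κ →
  (∀ q, 0 ≤ ρ q ∧ ρ q ≤ κ) →
  (∀ q : ℕ, q.Prime → ¬ q ∣ c →
    |(((range (q ^ 2)).filter (fun n => T q n)).card : ℝ) - q * ρ q| ≤ κ) →
  BKh c κ ρ → Low T c κ

/-! ## Package GS (25 min; uses S_LOW): the tests of the Singer parameters are good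

`ρ = (datG L 0).ρ`; everything is in `AxG` (`Pool.Agent.Y346.SG.DS.ax Pool.Agent.Y79.SG2.low`) and
`Pool.Agent.Y346.SG.BK.bk : S_BK`, `τ = 1` (`Pool.Agent.Y346.SG.tau_prime`); the primes dividing `c` but not `6 L`
cost at most `L` each (there are at most `c` of them). Field `cnt`: the number of solutions of `x ^ L = 1`
modulo `q` is at most `L` (or see the proof of `cnt` in `DS.ax`: it is equal to `q ρ q`). -/

def S_GS : Prop := ∀ L : ℕ, L.Prime → 3 ≤ L → ∀ c : ℕ, 0 < c → 6 * L ∣ c →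
  Good (TL L) c L

/-! ## Package GH (40 min; uses S_LOW): the tests for fixed `lam` are good

`ρ q = 1 + ch (1 - 4 lam) q` (`Pool.Agent.H951R4.OD.pol_fl`, structure `Pol`: periodicity modulo `q`, number of
zeros modulo `q`; so `T q` has `q ρ q` solutions in `range (q ^ 2)`), BKh from `Pool.Agent.H951R4.OD.bad_lower`
and Mertens (`mert_int`, see `countII` in `D2b.lean`); `2 / 2 ^ k ≥ (1 / 2) ^ k`. -/

def S_GH : Prop := ∀ lam : ℕ, 1 ≤ lam → ∀ c : ℕ, 0 < c → cl lam ∣ c →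
  Good (fun q n => (q : ℤ) ∣ fl lam n) c 2

/-! ## Package BEZ (25 min; uses nothing)

Integer polynomials without common complex zero have no common zero modulo `q` except for finitely
many primes `q`: they are coprime over `ℚ`, so `u F + v G = R` with `u v ∈ ℤ[X]` and an integer `R ≠ 0`. -/

def S_BEZ : Prop := ∀ F G : Polynomial ℤ, (∀ z : ℂ, ¬ (Polynomial.aeval z F = 0 ∧
  Polynomial.aeval z G = 0)) → ∃ R : ℕ, 0 < R ∧ ∀ q : ℕ, q.Prime → ¬ q ∣ R → ∀ n : ℤ,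
    ¬ ((q : ℤ) ∣ F.eval n ∧ (q : ℤ) ∣ G.eval n)

/-! ## Package SP (60 min; uses S_BEZ): separation for the Singer tests

`T q n` (`L` prime) means that `n` has order `L` modulo `q`, so `q ∣ 1 + n + .. + n ^ (L - 1)`. Put
`δ = a b' - a' b ≠ 0`. (a) `q` divides both forms: then `q ∣ δ`. (b) `q ∣ a n + b` and `m = a' n + b'` has order `L'`:
`a m ≡ δ`, so `δ ^ L' ≡ a ^ L'`; if `δ ^ L' ≠ a ^ L'` put the difference into `c`, otherwise `δ = a` (`L'` odd) and
`m ≡ 1`, contradiction (`¬ q ∣ a`). (c) both are tests: S_BEZ with `F = ∑_{j < L} (a X + b) ^ j`,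
`G = ∑_{j < L'} (a' X + b') ^ j`. A common complex zero `z`: `ω = a z + b`, `ω' = a' z + b'` are roots of unity `≠ 1`
of order `L`, `L'`, and `a ω' - a' ω = δ`. So `|δ + a' ω| = a`: `δ ^ 2 + 2 δ a' Re ω + a' ^ 2 = a ^ 2`, hence
`2 Re ω = ω + ω⁻¹` is rational and an algebraic integer, so an integer in `[-2, 2]`; `ω` of odd order gives
`ω ^ 2 + ω + 1 = 0`, `Re ω = -1 / 2`. In the same way `Re ω' = - 1 / 2`. Then `Im ω = ± √3 / 2`,
`Im ω' = ± √3 / 2` and `a Im ω' = a' Im ω` gives `a = a'`, and the real part gives `δ = 0`. -/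

def S_SP : Prop := ∀ a b a' b' L L' : ℕ, 0 < a → 0 < a' → a * b' ≠ a' * b → L.Prime → L'.Prime →
  3 ≤ L → 3 ≤ L' → ∃ c : ℕ, 0 < c ∧ ∀ q : ℕ, q.Prime → ¬ q ∣ c → ∀ n : ℕ,
    ¬ ((q ∣ a * n + b ∨ TL L q (a * n + b)) ∧
      (q ∣ a' * n + b' ∨ TL L' q (a' * n + b')))

/-! ## Package HP (40 min; uses S_BEZ): separation for fixed `lam`

`f = fl lam`, `f(x) = x² + (2 lam - 1) x + lam²` has discriminant `1 - 4 lam < 0`. `δ = a b' - a' b ≠ 0`.
(a) as before. (b) `q ∣ a n + b`, `q ∣ f (a' n + b')`: multiply by `a²`: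
`q ∣ δ² + (2 lam - 1) δ a + lam² a²`, a nonzero integer (negative discriminant). (c) S_BEZ with
`F = f (a X + b)`, `G = f (a' X + b')`: a common complex zero `z` has `a z + b = α`, `a' z + b' = α'` with `α`, `α'` zeros
of `f`, so `Im α = ± Im α' ≠ 0`, `a Im z = Im α`, `a' Im z = Im α'`, so `a = a'`, `α = α'` and `b = b'`. -/

def S_HP : Prop := ∀ lam : ℕ, 1 ≤ lam → ∀ a b a' b' : ℕ, 0 < a → 0 < a' → a * b' ≠ a' * b →
  ∃ c : ℕ, 0 < c ∧ ∀ q : ℕ, q.Prime → ¬ q ∣ c → ∀ n : ℕ,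
    ¬ ((q ∣ a * n + b ∨ (q : ℤ) ∣ fl lam (a * n + b)) ∧
      (q ∣ a' * n + b' ∨ (q : ℤ) ∣ fl lam (a' * n + b')))

/-! ## Package BRN (30 min; uses nothing): Brun's theorem from the count

Dyadic blocks: `∑_{2^j < n ≤ 2^(j+1), n ∈ A} 1 / n ≤ 2^(-j) C 2^(j+1) ((j + 1) log 2) ^ (ε - 2)`, summable in `j`
(or look at `Pool.Agent.R116.Hall.summable_nsq` for an existing lemma). -/

def S_BRN : Prop := ∀ (A : Set ℕ) (C ε : ℝ), 0 < C → ε < 1 →
  (∀ X : ℕ, 3 ≤ X → ({n : ℕ | 0 < n ∧ n ≤ X ∧ n ∈ A}.ncard : ℝ) ≤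
    C * X * (Real.log X) ^ (ε - 2)) →
  Summable (A.indicator fun n : ℕ => 1 / (n : ℝ))

end Pool.Agent.T2H45.OT
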