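import Pool.Agent.T2H45.OT.Stm

/-!
# Project OT: the general theorem on tuples
-/

set_option autoImplicit false

noncomputable section

namespace Pool.Agent.T2H45.OT

open Finset
open Pool.Agent.H951R4.OD (ch PI Ex fl cl)
open scoped Classical

/-- the general theorem -/
def S_TUP : Prop := ∀ (r : ℕ) (a b κ : Fin r → ℕ) (T : Fin r → ℕ → ℕ → Prop) (c : ℕ),
  (∀ i, Good (T i) c (κ i)) → Sep r a b T c → ∀ ε : ℝ, 0 < ε →
  ∃ C : ℝ, 0 < C ∧ ∀ x H : ℕ, 3 ≤ H →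
    ({n : ℕ | x < n ∧ n ≤ x + H ∧ ∀ i, PassT (T i) c (a i * n + b i)}.ncard : ℝ) ≤
      C * H * (Real.log H) ^ (ε - r)

theorem one_le_log {H : ℕ} (hH : 3 ≤ H) : 1 ≤ Real.log H := by
  have h3 : (3 : ℝ) ≤ H := by exact_mod_cast hH
  rw [Real.le_log_iff_exp_le (by linarith)]
  have := Real.exp_one_lt_d9
  linarith

/-- sets of integers in an interval -/
theorem ncard_le_of_interval {x H : ℕ} (P : ℕ → Prop) :
    {n : ℕ | x < n ∧ n ≤ x + H ∧ P n}.ncard ≤ H := by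
  have h1 : {n : ℕ | x < n ∧ n ≤ x + H ∧ P n} ⊆ (Ioc x (x + H) : Finset ℕ) := by
    intro n hn
    rw [Finset.mem_coe, Finset.mem_Ioc]
    exact ⟨hn.1, hn.2.1⟩
  have h2 := Set.ncard_le_ncard h1 (Finset.finite_toSet _)
  rw [Set.ncard_coe_finset, Nat.card_Ioc] at h2
  omega

theorem finite_interval {x H : ℕ} (P : ℕ → Prop) :
    {n : ℕ | x < n ∧ n ≤ x + H ∧ P n}.Finite :=
  (Set.finite_le_nat (x + H)).subset fun _ hn => hn.2.1

theorem pTUP (hCMB : S_CMB) (hFIN : S_FIN) : S_TUP := by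
  intro r a b κ T c hG hS ε hε
  obtain ⟨k, hk1, hkκ, hk⟩ : ∃ k : ℕ, 1 ≤ k ∧ (∀ i, κ i < 2 ^ k) ∧
      ∑ i, (κ i : ℝ) / 2 ^ k ≤ ε / 2 := by
    set M : ℝ := ∑ i, (κ i : ℝ) with hM
    have hM0 : 0 ≤ M := Finset.sum_nonneg fun i _ => Nat.cast_nonneg _
    obtain ⟨k, hk⟩ := pow_unbounded_of_one_lt (M + 2 * M / ε) (by norm_num : (1 : ℝ) < 2)
    have h2 : (2 : ℝ) ^ k ≤ 2 ^ (k + 1) := by
      rw [pow_succ]
      have : (0 : ℝ) < 2 ^ k := by positivity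
      linarith
    have h3 : 0 ≤ 2 * M / ε := by positivity
    refine ⟨k + 1, by omega, fun i => ?_, ?_⟩
    · have h1 : (κ i : ℝ) ≤ M :=
        Finset.single_le_sum (f := fun i => (κ i : ℝ)) (fun i _ => Nat.cast_nonneg _)
          (Finset.mem_univ i)
      have : (κ i : ℝ) < 2 ^ (k + 1) := by linarith
      exact_mod_cast this
    · rw [← Finset.sum_div, ← hM, div_le_iff₀ (by positivity)]
      have h4 : 2 * M / ε ≤ 2 ^ (k + 1) := by linarith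
      rw [div_le_iff₀ hε] at h4
      linarith
  obtain ⟨C1, hC1, h1⟩ := hCMB r a b κ T c hG hS k hk1 hkκ
  set δ : ℝ := ∑ i, (1 - (κ i : ℝ) / 2 ^ k) with hδ
  have hδ1 : δ = r - ∑ i, (κ i : ℝ) / 2 ^ k := by
    rw [hδ, Finset.sum_sub_distrib]
    simp
  have hδ0 : 0 ≤ δ := by
    refine Finset.sum_nonneg fun i _ => ?_
    have h2 : (κ i : ℝ) < 2 ^ k := by exact_mod_cast hkκ i
    rw [sub_nonneg, div_le_one (by positivity)]
    exact h2.le
  obtain ⟨C, hC, h⟩ := hFIN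
    (fun x H => {n : ℕ | x < n ∧ n ≤ x + H ∧ ∀ i, PassT (T i) c (a i * n + b i)}.ncard)
    (k * r) δ (ε / 2) (by linarith) hδ0 (fun x H => ncard_le_of_interval _)
    ⟨C1, hC1, fun z x H hz hH => h1 z x H hz hH⟩
  refine ⟨C, hC, fun x H hH => (h x H hH).trans ?_⟩
  refine mul_le_mul_of_nonneg_left ?_ (by positivity)
  exact Real.rpow_le_rpow_of_exponent_le (one_le_log hH) (by linarith)

end Pool.Agent.T2H45.OT
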